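import Pool.Agent.helper55.FPZ.KZ

/-!
# Project FPZ: an open subgroup of the Galois group acts on all Hodge classes through the CM torus
-/

set_option autoImplicit false

namespace Pool.Agent.FPZ

open Matrix Polynomial Pool.Agent.PL Pool.Agent.X4

theorem QB_alg : Algebra.IsAlgebraic ℚ QB := by
  have h := AlgebraicClosure.isAlgebraic ℚ
  refine ⟨fun x => ?_⟩
  obtain ⟨p, hp0, hp⟩ := h.isAlgebraic x
  have e : (DivisionRing.toRatAlgebra : Algebra ℚ QB) = AlgebraicClosure.instAlgebra ℚ :=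
    Subsingleton.elim _ _
  have h2 : @Polynomial.aeval ℚ QB _ _ (DivisionRing.toRatAlgebra) x p =
      @Polynomial.aeval ℚ QB _ _ (AlgebraicClosure.instAlgebra ℚ) x p := by
    rw [e]
  exact ⟨p, hp0, h2.trans hp⟩

theorem QB_emb (K : Type) [Field K] [CharZero K] [IsAlgClosed K] : Nonempty (QB →+* K) := by
  have := QB_alg
  exact ⟨(IsAlgClosed.lift (R := ℚ) (S := QB) (M := K) : QB →ₐ[ℚ] K).toRingHom⟩

/-- From scalars on homogeneous tensors to an element of the torus. -/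
theorem GT_torus (hDD : DD_stmt) (hKI : KI_stmt) (hDB : DB_stmt) (hDC : DC_stmt)
    (hTP : TP_stmt) {F : Type} [Field F] [CharZero F] {N : ℕ} {E : Type} (D : Datum F N E)
    (hcont : ∀ e, Continuous (D.h e)) (G : Matrix (Fin N) (Fin N) QB) (hG : Dia D G)
    (K : Type) [Field K] [CharZero K] [IsAlgClosed K] (τ : QB →+* K)
    (r : Matrix (Fin N) (Fin N) K) (Gi : Matrix (Fin N) (Fin N) QB) (hGi : G * Gi = 1)
    (hGi' : Gi * G = 1)
    (hk : ∀ (m : ℕ) (y : Tn N m QB) (a : Fin N → ℤ), y ≠ 0 → GI D G m y → Wt (dz D G) m y a →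
      ∃ k : K, k ≠ 0 ∧ tp (Gi.map τ * r * G.map τ) m *ᵥ tu τ y = k • tu τ y ∧
        (W0 (dz D G) a → k = 1)) :
    ∃ z : Matrix (Fin N) (Fin N) K, TZ D K z ∧ ∀ m, ∀ t ∈ D.Hodge D.base m,
      tp r m *ᵥ up K t = tp z m *ᵥ up K t := by
  have htp : ∀ (a b : Matrix (Fin N) (Fin N) K) (n : ℕ) (x : Tn N n K),
      tp a n *ᵥ (tp b n *ᵥ x) = tp (a * b) n *ᵥ x := by
    intro a b n x
    rw [(hTP N n K a b).1, Matrix.mulVec_mulVec]
  have htp1 : ∀ (n : ℕ) (x : Tn N n K), tp (1 : Matrix (Fin N) (Fin N) K) n *ᵥ x = x := by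
    intro n x
    rw [(hTP N n K 1 1).2, Matrix.one_mulVec]
  have hmap : ∀ A B : Matrix (Fin N) (Fin N) QB, (A * B).map τ = A.map τ * B.map τ :=
    fun A B => Matrix.map_mul
  have hone : (1 : Matrix (Fin N) (Fin N) QB).map τ = 1 :=
    Matrix.map_one τ (map_zero τ) (map_one τ)
  have hGK : G.map τ * Gi.map τ = 1 := by rw [← hmap, hGi, hone]
  have hGK' : Gi.map τ * G.map τ = 1 := by rw [← hmap, hGi', hone]
  obtain ⟨ζ, hζ0, hζ1, hζ⟩ := hKI F N E D hcont G hG K τ (Gi.map τ * r * G.map τ) hk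
  refine ⟨G.map τ * diagonal ζ * Gi.map τ, ⟨?_, ?_⟩, ?_⟩
  · have hd : IsUnit (diagonal ζ : Matrix (Fin N) (Fin N) K) := by
      rw [Matrix.isUnit_iff_isUnit_det, Matrix.det_diagonal, isUnit_iff_ne_zero]
      exact Finset.prod_ne_zero_iff.mpr fun i _ => hζ0 i
    exact ((IsUnit.of_mul_eq_one _ hGK).mul hd).mul (IsUnit.of_mul_eq_one _ hGK')
  · intro m x hx
    have h1 : ∀ I, (tp (Gi.map τ) m *ᵥ x) I ≠ 0 → ∏ k, ζ (I k) = 1 := by
      intro I hI
      refine hζ1 m I ?_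
      rintro d ⟨y, hy, hyd⟩
      have h2 : Gi.map τ * cst K y * G.map τ = diagonal (fun i => τ (d i)) := by
        have h3 : cst K y = (cst QB y).map τ := by
          funext i j
          simp [cst, Matrix.map_apply]
        rw [h3, ← hmap, ← hmap, Matrix.mul_assoc, hyd, ← Matrix.mul_assoc, hGi', Matrix.one_mul,
          Matrix.diagonal_map (map_zero τ)]
      have h4 := hDC N m K (Gi.map τ) (G.map τ) (cst K y) hGK' hGK x
      rw [hx y hy, Matrix.mulVec_zero, h2, hDD K N m] at h4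
      have h5 := congrFun h4 I
      have h6 : (∑ k, τ (d (I k))) * (tp (Gi.map τ) m *ᵥ x) I = 0 := h5.symm
      rcases mul_eq_zero.mp h6 with h7 | h7
      · rw [← map_sum] at h7
        exact (map_eq_zero τ).mp h7
      · exact absurd h7 hI
    have h2 : tp (diagonal ζ) m *ᵥ (tp (Gi.map τ) m *ᵥ x) = tp (Gi.map τ) m *ᵥ x := by
      funext I
      rw [KZ_diag]
      by_cases hI : (tp (Gi.map τ) m *ᵥ x) I = 0
      · rw [hI, mul_zero]
      · rw [h1 I hI, one_mul]
    have h3 : tp (G.map τ * diagonal ζ * Gi.map τ) m *ᵥ x =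
        tp (G.map τ) m *ᵥ (tp (diagonal ζ) m *ᵥ (tp (Gi.map τ) m *ᵥ x)) := by
      rw [htp, htp, Matrix.mul_assoc]
    rw [h3, h2, htp, hGK, htp1]
  · intro m t ht
    obtain ⟨y, hy⟩ : ∃ y, y = tp Gi m *ᵥ up QB t := ⟨_, rfl⟩
    have hyGI : GI D G m y := by
      intro Y hY
      have hGinv : G⁻¹ = Gi := Matrix.inv_eq_right_inv hGi
      rw [hGinv, hy, ← hDC N m QB Gi G (cst QB Y) hGi' hGi (up QB t), ← hDB N m QB Y t,
        hY m t ht]
      have : up QB (0 : Tn N m ℚ) = 0 := by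
        funext I
        simp [up]
      rw [this, Matrix.mulVec_zero]
    have hty : tp (G.map τ) m *ᵥ tu τ y = up K t := by
      have h1 : tp G m *ᵥ y = up QB t := by
        rw [hy, Matrix.mulVec_mulVec, ← (hTP N m QB G Gi).1, hGi, (hTP N m QB 1 1).2,
          Matrix.one_mulVec]
      have h2 : up K t = fun I => τ (up QB t I) := by
        funext I
        simp [up]
      rw [h2, ← h1]
      funext I
      exact (FK_map τ m G y I).symm
    have h1 := hζ m y hyGI
    have e1 : G.map τ * (Gi.map τ * r * G.map τ) = r * G.map τ := by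
      have : G.map τ * (Gi.map τ * r * G.map τ) = (G.map τ * Gi.map τ) * (r * G.map τ) := by
        simp only [Matrix.mul_assoc]
      rw [this, hGK, Matrix.one_mul]
    calc tp r m *ᵥ up K t = tp (r * G.map τ) m *ᵥ tu τ y := by rw [← hty, htp]
      _ = tp (G.map τ * (Gi.map τ * r * G.map τ)) m *ᵥ tu τ y := by rw [e1]
      _ = tp (G.map τ) m *ᵥ (tp (diagonal ζ) m *ᵥ tu τ y) := by rw [← htp, h1]
      _ = tp (G.map τ * diagonal ζ * Gi.map τ) m *ᵥ (tp (G.map τ) m *ᵥ tu τ y) := by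
          rw [htp, htp]
          refine congrArg (fun A => tp A m *ᵥ tu τ y) ?_
          have : G.map τ * diagonal ζ * Gi.map τ * G.map τ =
              G.map τ * diagonal ζ * (Gi.map τ * G.map τ) := by
            simp only [Matrix.mul_assoc]
          rw [this, hGK', Matrix.mul_one]
      _ = tp (G.map τ * diagonal ζ * Gi.map τ) m *ᵥ up K t := by rw [hty]

/-- A homogeneous tensor of weight `0` killed by `gD` is a combination of elements of `HZ`. -/
theorem GT_zero (hGZ : GZ_stmt) (hDD : DD_stmt) (hBT : BT_stmt) (hDC : DC_stmt)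
    {F : Type} [Field F] [CharZero F] {N : ℕ} {E : Type} (D : Datum F N E)
    (hcont : ∀ e, Continuous (D.h e)) (G : Matrix (Fin N) (Fin N) QB) (hG : Dia D G)
    (m : ℕ) (y : Tn N m QB) (hy : GI D G m y)
    (hw : ∀ I, y I ≠ 0 → ∀ d ∈ dz D G, ∑ k, d (I k) = 0) :
    tp G m *ᵥ y ∈ Submodule.span QB (up QB '' HZ D m) := by
  have hi1 : G * G⁻¹ = 1 := Matrix.mul_nonsing_inv _ ((Matrix.isUnit_iff_isUnit_det _).1 hG.1)
  have hi2 : G⁻¹ * G = 1 := Matrix.nonsing_inv_mul _ ((Matrix.isUnit_iff_isUnit_det _).1 hG.1)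
  have h1 := hBT QB N m (gD D ∪ Zm D) (tp G m *ᵥ y) (by
    rintro Y (hY | hY)
    · have h2 := hDC N m QB G G⁻¹ (G⁻¹ * cst QB Y * G) hi1 hi2 y
      have h3 : G * (G⁻¹ * cst QB Y * G) * G⁻¹ = cst QB Y := by
        have : G * (G⁻¹ * cst QB Y * G) * G⁻¹ = (G * G⁻¹) * cst QB Y * (G * G⁻¹) := by
          simp only [Matrix.mul_assoc]
        rw [this, hi1, Matrix.one_mul, Matrix.mul_one]
      rw [h3, hy Y hY, Matrix.mulVec_zero] at h2
      exact h2.symm
    · obtain ⟨d, hd⟩ := hG.2 Y hY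
      have h2 := hDC N m QB G G⁻¹ (diagonal d) hi1 hi2 y
      have h3 : G * diagonal d * G⁻¹ = cst QB Y := by
        rw [← hd, Matrix.mul_assoc, hi1, Matrix.mul_one]
      rw [h3, hDD QB N m d y] at h2
      have h4 : (fun I => (∑ k, d (I k)) * y I) = 0 := by
        funext I
        by_cases hI : y I = 0
        · rw [hI, mul_zero]
          rfl
        · rw [hw I hI d ⟨Y, hY, hd⟩, zero_mul]
          rfl
      rw [h4, Matrix.mulVec_zero] at h2
      exact h2.symm)
  refine Submodule.span_mono ?_ h1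
  rintro _ ⟨s, hs, rfl⟩
  exact ⟨s, ⟨(hGZ F N E D hcont).2.1 m s fun Y hY => hs Y (Or.inl hY),
    fun z hz => hs z (Or.inr hz)⟩, rfl⟩

/-- A matrix which fixes the tensors of `HZ` acts on all Hodge tensors as an element of the torus. -/
theorem GT_main (hSS : SS_stmt) (hDG : DG_stmt) (hGZ : GZ_stmt) (hDD : DD_stmt) (hTM : TM_stmt)
    (hKH : KH_stmt) (hKI : KI_stmt) (hDB : DB_stmt) (hBT : BT_stmt) (hDC : DC_stmt)
    (hTP : TP_stmt) {F : Type} [Field F] [CharZero F] {N : ℕ} {E : Type} (D : Datum F N E)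
    (hcont : ∀ e, Continuous (D.h e)) (K : Type) [Field K] [CharZero K] [IsAlgClosed K]
    (r : Matrix (Fin N) (Fin N) K)
    (hfix : ∀ m, ∀ t ∈ HZ D m, tp r m *ᵥ up K t = up K t) :
    ∃ z : Matrix (Fin N) (Fin N) K, TZ D K z ∧ ∀ m, ∀ t ∈ D.Hodge D.base m,
      tp r m *ᵥ up K t = tp z m *ᵥ up K t := by
  obtain ⟨G, hG, hGd⟩ := hDG QB N (Zm D)
    (fun z hz z' hz' => (hGZ F N E D hcont).2.2.1 z hz z' hz') (hSS F N E D)
  have hGi : G * G⁻¹ = 1 := Matrix.mul_nonsing_inv _ ((Matrix.isUnit_iff_isUnit_det _).1 hG)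
  have hGi' : G⁻¹ * G = 1 := Matrix.nonsing_inv_mul _ ((Matrix.isUnit_iff_isUnit_det _).1 hG)
  obtain ⟨τ⟩ := QB_emb K
  have htp : ∀ (a b : Matrix (Fin N) (Fin N) K) (n : ℕ) (x : Tn N n K),
      tp a n *ᵥ (tp b n *ᵥ x) = tp (a * b) n *ᵥ x := by
    intro a b n x
    rw [(hTP N n K a b).1, Matrix.mulVec_mulVec]
  have htp1 : ∀ (n : ℕ) (x : Tn N n K), tp (1 : Matrix (Fin N) (Fin N) K) n *ᵥ x = x := by
    intro n x
    rw [(hTP N n K 1 1).2, Matrix.one_mulVec]
  have hmap : ∀ A B : Matrix (Fin N) (Fin N) QB, (A * B).map τ = A.map τ * B.map τ :=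
    fun A B => Matrix.map_mul
  have hone : (1 : Matrix (Fin N) (Fin N) QB).map τ = 1 :=
    Matrix.map_one τ (map_zero τ) (map_one τ)
  have hGK : G.map τ * G⁻¹.map τ = 1 := by rw [← hmap, hGi, hone]
  have hGK' : G⁻¹.map τ * G.map τ = 1 := by rw [← hmap, hGi', hone]
  -- weight 0
  have hzero : ∀ (m : ℕ) (y : Tn N m QB), GI D G m y →
      (∀ I, y I ≠ 0 → ∀ d ∈ dz D G, ∑ k, d (I k) = 0) →
      tp (G⁻¹.map τ * r * G.map τ) m *ᵥ tu τ y = tu τ y := by
    intro m y hy hw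
    have h1 := GT_zero hGZ hDD hBT hDC D hcont G ⟨hG, hGd⟩ m y hy hw
    -- `r` fixes the image
    have h2 : ∀ x ∈ Submodule.span QB (up QB '' HZ D m),
        tp r m *ᵥ (fun I => τ (x I)) = fun I => τ (x I) := by
      intro x hx
      induction hx using Submodule.span_induction with
      | mem x hx =>
        obtain ⟨s, hs, rfl⟩ := hx
        have h3 : (fun I => τ (up QB s I)) = up K s := by
          funext I
          simp [up]
        rw [h3]
        exact hfix m s hs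
      | zero =>
        have h3 : (fun I => τ ((0 : Tn N m QB) I)) = 0 := by
          funext I
          simp
        rw [h3, Matrix.mulVec_zero]
      | add x y _ _ hx hy =>
        have h3 : (fun I => τ ((x + y) I)) = (fun I => τ (x I)) + fun I => τ (y I) := by
          funext I
          simp
        rw [h3, Matrix.mulVec_add, hx, hy]
      | smul c x _ hx =>
        have h3 : (fun I => τ ((c • x) I)) = τ c • fun I => τ (x I) := by
          funext I
          simp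
        rw [h3, Matrix.mulVec_smul, hx]
    have h3 := h2 _ h1
    have h4 : (fun I => τ ((tp G m *ᵥ y) I)) = tp (G.map τ) m *ᵥ tu τ y := by
      funext I
      exact FK_map τ m G y I
    rw [h4] at h3
    have h5 : tp (G⁻¹.map τ * r * G.map τ) m *ᵥ tu τ y =
        tp (G⁻¹.map τ) m *ᵥ (tp r m *ᵥ (tp (G.map τ) m *ᵥ tu τ y)) := by
      rw [htp, htp, Matrix.mul_assoc]
    rw [h5, h3, htp, hGK', htp1]
  refine GT_torus hDD hKI hDB hDC hTP D hcont G ⟨hG, hGd⟩ K τ r G⁻¹ hGi hGi' ?_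
  intro m y a hy0 hy hw
  by_cases hW : W0 (dz D G) a
  · refine ⟨1, one_ne_zero, ?_, fun _ => rfl⟩
    rw [one_smul]
    exact hzero m y hy fun I hI d hd => (hw I hI d hd).trans (hW d hd)
  · obtain ⟨y', hy'0, hy', hw'⟩ := hKH F N E D hcont G ⟨hG, hGd⟩ m y a hy0 hy hw
    have h1 : GI D G (m + m) (tmul y y') := by
      intro Y hY
      rw [(hTM QB N m m y y' (G⁻¹ * cst QB Y * G)).2.1, hy Y hY, hy' Y hY]
      funext I
      simp [tmul]
    have h2 : ∀ I, tmul y y' I ≠ 0 → ∀ d ∈ dz D G, ∑ k, d (I k) = 0 := by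
      intro I hI d hd
      rw [Fin.sum_univ_add]
      have h3 : y (fun i => I (Fin.castAdd m i)) ≠ 0 := left_ne_zero_of_mul hI
      have h4 : y' (fun i => I (Fin.natAdd m i)) ≠ 0 := right_ne_zero_of_mul hI
      have h5 := hw _ h3 d hd
      have h6 := hw' _ h4 d hd
      rw [h5, h6]
      rw [← Finset.sum_add_distrib]
      refine Finset.sum_eq_zero fun i _ => ?_
      simp
    have h3 := hzero (m + m) (tmul y y') h1 h2
    have h4 : tu τ (tmul y y') = tmul (tu τ y) (tu τ y') := by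
      funext I
      simp [tu, tmul]
    rw [h4, (hTM K N m m (tu τ y) (tu τ y') (G⁻¹.map τ * r * G.map τ)).1] at h3
    obtain ⟨J, hJ⟩ : ∃ J, y' J ≠ 0 := by
      by_contra hcon
      push Not at hcon
      exact hy'0 (funext hcon)
    obtain ⟨I0, hI0⟩ : ∃ I, y I ≠ 0 := by
      by_contra hcon
      push Not at hcon
      exact hy0 (funext hcon)
    have h5 : ∀ I, (tp (G⁻¹.map τ * r * G.map τ) m *ᵥ tu τ y) I *
        (tp (G⁻¹.map τ * r * G.map τ) m *ᵥ tu τ y') J = τ (y I) * τ (y' J) := by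
      intro I
      have h6 := congrFun h3 (Fin.append I J)
      simp only [tmul, Fin.append_left, Fin.append_right] at h6
      exact h6
    have h6 : (tp (G⁻¹.map τ * r * G.map τ) m *ᵥ tu τ y') J ≠ 0 := by
      intro h
      have h7 := h5 I0
      rw [h, mul_zero] at h7
      exact mul_ne_zero ((map_ne_zero τ).mpr hI0) ((map_ne_zero τ).mpr hJ) h7.symm
    refine ⟨τ (y' J) / (tp (G⁻¹.map τ * r * G.map τ) m *ᵥ tu τ y') J,
      div_ne_zero ((map_ne_zero τ).mpr hJ) h6, ?_, fun h => absurd h hW⟩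
    funext I
    show (tp (G⁻¹.map τ * r * G.map τ) m *ᵥ tu τ y) I = _ * τ (y I)
    rw [div_mul_eq_mul_div, eq_div_iff h6, h5 I, mul_comm]

end Pool.Agent.FPZ
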