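import Pool.Agent.helper55.FPZ.SpecZ
import Pool.Agent.helper27.X4.ND

/-!
# Project FPZ, row KP (positivity)
-/

set_option autoImplicit false

namespace Pool.Agent.FPZ

open Matrix Polynomial Pool.Agent.PL Pool.Agent.X4

theorem KP_tr {R : Type} [CommRing R] {N : ℕ} (m : ℕ) (B : Matrix (Fin N) (Fin N) R) :
    tp Bᵀ m = (tp B m)ᵀ := by
  ext I J
  simp [tp, Matrix.transpose_apply]

theorem KPx (hTP : TP_stmt) : KP_stmt := by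
  intro F _ _ N E D m t ht h
  obtain ⟨B, hB, hBS⟩ := ND_sq _ D.pos
  have hC := ht iC
  have h1 : (up ℝ t) ⬝ᵥ (tp (cst ℝ (D.Q D.base)) m *ᵥ up ℝ t) = 0 := by
    have h2 : (up ℝ t) ⬝ᵥ (tp (cst ℝ (D.Q D.base)) m *ᵥ up ℝ t) =
        ((t ⬝ᵥ (tp (D.Q D.base) m *ᵥ t) : ℚ) : ℝ) := by
      simp [up, cst, tp, Matrix.mulVec, dotProduct]
    rw [h2, h]
    simp
  have hC' : tp (D.h D.base iC) m *ᵥ up ℝ t = up ℝ t := hC
  have h3 : (tp B m *ᵥ up ℝ t) ⬝ᵥ (tp B m *ᵥ up ℝ t) = 0 := by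
    have h4 : (up ℝ t) ⬝ᵥ (tp (cst ℝ (D.Q D.base)) m *ᵥ (tp (D.h D.base iC) m *ᵥ up ℝ t)) = 0 := by
      rw [hC']
      exact h1
    rw [Matrix.mulVec_mulVec, ← (hTP N m ℝ _ _).1, hBS, (hTP N m ℝ _ _).1, KP_tr,
      ← Matrix.mulVec_mulVec, Matrix.dotProduct_mulVec, Matrix.vecMul_transpose] at h4
    exact h4
  have h5 : tp B m *ᵥ up ℝ t = 0 := dotProduct_self_eq_zero.mp h3
  obtain ⟨b, hb⟩ : ∃ b, b * B = 1 := hB.exists_left_inv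
  have h6 : up ℝ t = 0 := by
    have h7 : tp b m *ᵥ (tp B m *ᵥ up ℝ t) = up ℝ t := by
      rw [Matrix.mulVec_mulVec, ← (hTP N m ℝ _ _).1, hb, (hTP N m ℝ 1 1).2, Matrix.one_mulVec]
    rw [← h7, h5, Matrix.mulVec_zero]
  funext I
  have h8 := congrFun h6 I
  have h9 : ((t I : ℚ) : ℝ) = 0 := h8
  exact_mod_cast h9

end Pool.Agent.FPZ
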