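import Pool.Agent.helper55.FPZ.SpecN

/-!
# Project FPZ, third part: finitely many possibilities, for all primes `ℓ` at once

THEOREM (`FK`). Data as in FPZ, `T` an ample family of Hodge tensors which become Hodge tensors `s'` under `e`,
the same `s'` in all realisations (all `ℓ`, de Rham): `T` is absolutely Hodge. Then there are a number field
`L` and a FINITE set `C` of matrices over `L` such that in every realisation the comparison isomorphism
between `base` and `e` acts on ALL Hodge tensors of all orders killed by `Zm D` (all Hodge tensors without factors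
of CM type) as an element of `C` (and an embedding of `L`).

PROOF. The isomorphisms `c` with `tp c s = s'` are the points of an affine variety over `ℚ`, with coordinate ring
`A`. By the argument of SpecN with derivations the values of `tp c t` in every field are algebraic. So for each of
the finitely many minimal primes `𝔭` of `A` the ring `R ⊂ A/𝔭` generated by the coordinates of all `tp x t`
(`x` the generic matrix) is a field; `A/𝔭` has a point in a number field `L` (Nullstellensatz), and `R ⊂ L`. A point
of `A/𝔭` in an algebraically closed field `F` restricts to an embedding `R → F`, which extends to `L`.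

RULES as in Spec.lean; `import Pool.Agent.helper55.FPZ.SpecK`.
-/

set_option autoImplicit false

namespace Pool.Agent.FPZ

open Matrix Polynomial Pool.Agent.PL Pool.Agent.X4

/-- `FB1` (medium, only Mathlib). The case of a domain. PROOF. `R = Algebra.adjoin ℚ S` is algebraic over `ℚ`
(`Algebra.IsAlgebraic.adjoin..` / integral closure), a domain, so a field (`isField_of_isIntegral..`, `Subalgebra.isField_of_algebraic`). `𝔪` a
maximal ideal of `A`, `L = A ⧸ 𝔪` (`Ideal.Quotient.field`), a finitely generated `ℚ`-algebra, so finite over `ℚ` (Zariski: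
`finite_of_finite_type_of_isJacobsonRing`), `NumberField L`; `h` the quotient map. `φ` and `h` restricted to the field `R` are embeddings; `F` is an
`R`-algebra by `φ`, `L` is an algebraic `R`-algebra by `h` (algebraic over `ℚ`), `τ = IsAlgClosed.lift`. -/
def FB1_stmt : Prop := ∀ (A : Type) [CommRing A] [IsDomain A] [Algebra ℚ A]
  [Algebra.FiniteType ℚ A] (S : Set A), (∀ s ∈ S, IsAlgebraic ℚ s) →
  ∃ (L : Type) (_ : Field L) (_ : NumberField L) (h : A →+* L),
    ∀ (F : Type) [Field F] [IsAlgClosed F] (φ : A →+* F), ∃ τ : L →+* F, ∀ s ∈ S, φ s = τ (h s)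

/-- `FB2` (medium; `FB1_stmt`). PROOF. `A` is Noetherian (`Algebra.FiniteType.isNoetherianRing`), so it has finitely many minimal
primes `𝔭_j` (`minimalPrimes.finite_of_isNoetherianRing`). `A ⧸ 𝔭_j` is a domain, `K_j` its field of fractions; the image `s` of an element of `S` is
algebraic in `K_j` by hypothesis, so in `A ⧸ 𝔭_j` (injectivity). `FB1`: `L_j`, `h_j`. Embed `L_j` in `AlgebraicClosure ℚ` (`IsAlgClosed.lift`), `L` = the (finite)
supremum of the images (`IntermediateField.finiteDimensional_iSup_of_finite`), `ι_j : L_j → L`. `H` = the `ι_j ∘ h_j ∘ (A → A ⧸ 𝔭_j)`. For `φ : A → F` the kernel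
is prime and contains a minimal prime `𝔭_j` (`Ideal.exists_minimalPrimes_le`): `φ` factors, `τ_j : L_j → F`; `L` is algebraic over `L_j`, so `τ_j` extends to `τ : L → F`
with `τ ∘ ι_j = τ_j` (`IsAlgClosed.lift` for the `L_j`-algebras `L`, `F`). (No homomorphism `φ` at all: `L = ℚ`; nothing special is needed.) -/
def FB2_stmt : Prop := ∀ (A : Type) [CommRing A] [Algebra ℚ A] [Algebra.FiniteType ℚ A]
  (S : Set A),
  (∀ (K : Type) [Field K] [CharZero K] (φ : A →+* K), ∀ s ∈ S, IsAlgebraic ℚ (φ s)) →
  ∃ (L : Type) (_ : Field L) (_ : NumberField L) (H : Set (A →+* L)), H.Finite ∧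
    ∀ (F : Type) [Field F] [IsAlgClosed F] (φ : A →+* F), ∃ h ∈ H, ∃ τ : L →+* F,
      ∀ s ∈ S, φ s = τ (h s)

/-- `PT` (short-medium; `FB2_stmt`). In terms of points. PROOF. `A = MvPolynomial σ ℚ ⧸ Ideal.span I`, the elements the images of `S`; a point `x` with
`aeval x f = 0` for `f ∈ I` is a homomorphism (`Ideal.Quotient.lift`), and a homomorphism `φ` is the point `x i = φ (X i)` (homomorphisms of rings between `ℚ`-algebras
are `ℚ`-linear, `RingHom.toRatAlgHom`; `MvPolynomial.algHom_ext`). `H` = the set of the points of the homomorphisms of `FB2`. -/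
def PT_stmt : Prop := ∀ (σ : Type) [Finite σ] (I S : Set (MvPolynomial σ ℚ)),
  (∀ (K : Type) [Field K] [CharZero K] (x : σ → K), (∀ f ∈ I, MvPolynomial.aeval x f = 0) →
    ∀ s ∈ S, IsAlgebraic ℚ (MvPolynomial.aeval x s)) →
  ∃ (L : Type) (_ : Field L) (_ : NumberField L) (H : Finset (σ → L)),
    (∀ x ∈ H, ∀ f ∈ I, MvPolynomial.aeval x f = 0) ∧
    ∀ (F : Type) [Field F] [CharZero F] [IsAlgClosed F] (x : σ → F),
      (∀ f ∈ I, MvPolynomial.aeval x f = 0) →
      ∃ y ∈ H, ∃ τ : L →+* F, ∀ s ∈ S, MvPolynomial.aeval x s = τ (MvPolynomial.aeval y s)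

end Pool.Agent.FPZ
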