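import Pool.Agent.helper55.FPZ.MZ
import Pool.Agent.helper55.FPZ.SpecK

/-!
# Project FPZ: finitely many possibilities for the comparison isomorphisms
-/

set_option autoImplicit false

namespace Pool.Agent.FPZ

open Matrix Polynomial Pool.Agent.PL Pool.Agent.X4

/-- `s` is the Hodge tensor for `e` with the class of `t` (base embedding). -/
def Cor {F : Type} [Field F] [CharZero F] {N : ℕ} {E : Type} (D : Datum F N E) (e : E) (m : ℕ)
    (t s : Tn N m ℚ) : Prop :=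
  s ∈ D.Hodge e m ∧ D.cls e m s = D.cls D.base m t

section Field

variable {F : Type} [Field F] [CharZero F] {N : ℕ} {E : Type}

theorem FK_kill (hBX : BX_stmt) (hDL : DL_stmt) (hDB : DB_stmt) (D : Datum F N E)
    (T : (m : ℕ) → Set (Tn N m ℚ)) (hT : ∀ X ∈ Kil T, ∃ Y ∈ gD D, ∃ z ∈ Zm D, X = Y + z)
    (K : Type) [Field K] [CharZero K] (X : Matrix (Fin N) (Fin N) K)
    (hX : ∀ m, ∀ t ∈ T m, der X m (up K t) = 0) (m : ℕ) (t : Tn N m ℚ) (ht : t ∈ HZ D m) :
    der X m (up K t) = 0 := by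
  have h := hBX K N T X hX
  have hu0 : up K (0 : Tn N m ℚ) = 0 := by
    funext I
    simp [up]
  refine MZ_killB hDL (cst K '' Kil T) m (up K t) ?_ X h
  rintro _ ⟨W, hW, rfl⟩
  obtain ⟨Y, hY, z, hz, rfl⟩ := hT W hW
  rw [← hDB N m K (Y + z) t, (hDL N m ℚ Y z t t 0).1, hY m t ht.1, ht.2 z hz, add_zero, hu0]

/-- The transport by a matrix `c`. -/
theorem FK_span (hBX : BX_stmt) (hDL : DL_stmt) (hDB : DB_stmt) (hHG : HG_stmt) (hBT : BT_stmt)
    (hDC : DC_stmt) (hTP : TP_stmt) (D : Datum F N E) (hcont : ∀ e, Continuous (D.h e))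
    (T : (m : ℕ) → Set (Tn N m ℚ)) (hT : ∀ X ∈ Kil T, ∃ Y ∈ gD D, ∃ z ∈ Zm D, X = Y + z)
    (e : E) (K : Type) [Field K] [CharZero K] (c c' : Matrix (Fin N) (Fin N) K)
    (hcc' : c * c' = 1) (hc'c : c' * c = 1)
    (he : ∀ m, ∀ s ∈ T m, ∃ s' ∈ D.Hodge e m, tp c m *ᵥ up K s = up K s')
    (m : ℕ) (t : Tn N m ℚ) (ht : t ∈ HZ D m) :
    tp c m *ᵥ up K t ∈ Submodule.span K (up K '' (D.Hodge e m : Set (Tn N m ℚ))) := by
  have htp : ∀ (a b : Matrix (Fin N) (Fin N) K) (n : ℕ) (x : Tn N n K),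
      tp a n *ᵥ (tp b n *ᵥ x) = tp (a * b) n *ᵥ x := by
    intro a b n x
    rw [(hTP N n K a b).1, Matrix.mulVec_mulVec]
  have htp1 : ∀ (n : ℕ) (x : Tn N n K), tp (1 : Matrix (Fin N) (Fin N) K) n *ᵥ x = x := by
    intro n x
    rw [(hTP N n K 1 1).2, Matrix.one_mulVec]
  obtain ⟨hG1, -⟩ := hHG N (D.h e) (hcont e) (fun m' => (D.Hodge e m' : Set (Tn N m' ℚ)))
    (fun n s hs => hs)
  have hkey : ∀ X ∈ Kil (fun m' => (D.Hodge e m' : Set (Tn N m' ℚ))),
      der (cst K X) m (tp c m *ᵥ up K t) = 0 := by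
    intro X hX
    have hconj : c * (c' * cst K X * c) * c' = cst K X := by
      rw [Matrix.mul_assoc, Matrix.mul_assoc (c' * cst K X), hcc', Matrix.mul_one,
        ← Matrix.mul_assoc, hcc', Matrix.one_mul]
    have hk := FK_kill hBX hDL hDB D T hT K (c' * cst K X * c) (by
      intro n s hs
      obtain ⟨s', hs', htr⟩ := he n s hs
      have h1 : der X n s' = 0 := hX n s' hs'
      have h3 : der (cst K X) n (up K s') = 0 := by
        rw [← hDB N n K X s', h1]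
        funext I
        simp [up]
      have h5 := hDC N n K c c' (c' * cst K X * c) hcc' hc'c (up K s)
      rw [hconj, htr, h3] at h5
      have h6 : tp c' n *ᵥ (tp c n *ᵥ der (c' * cst K X * c) n (up K s)) = 0 := by
        rw [h5, Matrix.mulVec_zero]
      rw [htp, hc'c, htp1] at h6
      exact h6) m t ht
    have h8 := hDC N m K c c' (c' * cst K X * c) hcc' hc'c (up K t)
    rw [hconj, hk, Matrix.mulVec_zero] at h8
    exact h8.symm
  have hspan := hBT K N m (Kil (fun m' => (D.Hodge e m' : Set (Tn N m' ℚ))))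
    (tp c m *ᵥ up K t) hkey
  refine Submodule.span_mono ?_ hspan
  rintro _ ⟨s, hs, rfl⟩
  exact ⟨s, hG1 m s hs, rfl⟩

/-- The coordinates are algebraic. -/
theorem FK_alg (h1 : ND1_stmt) (h2 : ND2_stmt) (hBX : BX_stmt) (hDL : DL_stmt) (hDB : DB_stmt)
    (hDC : DC_stmt) (hTP : TP_stmt) (D : Datum F N E)
    (T : (m : ℕ) → Set (Tn N m ℚ)) (hT : ∀ X ∈ Kil T, ∃ Y ∈ gD D, ∃ z ∈ Zm D, X = Y + z)
    (K : Type) [Field K] [CharZero K] (c c' : Matrix (Fin N) (Fin N) K)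
    (hcc' : c * c' = 1) (hc'c : c' * c = 1)
    (he : ∀ m, ∀ s ∈ T m, ∃ s' : Tn N m ℚ, tp c m *ᵥ up K s = up K s')
    (m : ℕ) (t : Tn N m ℚ) (ht : t ∈ HZ D m) (I : Fin m → Fin N) :
    IsAlgebraic ℚ ((tp c m *ᵥ up K t) I) := by
  have htp : ∀ (a b : Matrix (Fin N) (Fin N) K) (n : ℕ) (x : Tn N n K),
      tp a n *ᵥ (tp b n *ᵥ x) = tp (a * b) n *ᵥ x := by
    intro a b n x
    rw [(hTP N n K a b).1, Matrix.mulVec_mulVec]
  have htp1 : ∀ (n : ℕ) (x : Tn N n K), tp (1 : Matrix (Fin N) (Fin N) K) n *ᵥ x = x := by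
    intro n x
    rw [(hTP N n K 1 1).2, Matrix.one_mulVec]
  refine h2 K _ fun δ => ?_
  have hconj : c * (c' * (c.map fun x => δ x)) * c' = (c.map fun x => δ x) * c' := by
    rw [← Matrix.mul_assoc c, hcc', Matrix.one_mul]
  have hform : ∀ (n : ℕ) (s : Tn N n ℚ), (fun I => δ ((tp c n *ᵥ up K s) I)) =
      tp c n *ᵥ der (c' * (c.map fun x => δ x)) n (up K s) := by
    intro n s
    rw [h1 K N n δ c c' hc'c s, hDC N n K c c' (c' * (c.map fun x => δ x)) hcc' hc'c (up K s),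
      hconj]
  have h5 := FK_kill hBX hDL hDB D T hT K (c' * (c.map fun x => δ x)) (by
    intro n s hs
    obtain ⟨s', htr⟩ := he n s hs
    have g2 : (fun I => δ ((tp c n *ᵥ up K s) I)) = 0 := by
      rw [htr]
      funext J
      have : (up K s' J : K) = algebraMap ℚ K (s' J) := by simp [up]
      rw [this]
      exact δ.map_algebraMap (s' J)
    rw [hform n s] at g2
    have g3 : tp c' n *ᵥ (tp c n *ᵥ der (c' * (c.map fun x => δ x)) n (up K s)) = 0 := by
      rw [g2, Matrix.mulVec_zero]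
    rw [htp, hc'c, htp1] at g3
    exact g3) m t ht
  have h6 := congrFun (hform m t) I
  rw [h5, Matrix.mulVec_zero] at h6
  exact h6

end Field

/-- The matrix of a point. -/
def FK_mx {N : ℕ} {K : Type} (x : Option (Fin N × Fin N) → K) : Matrix (Fin N) (Fin N) K :=
  Matrix.of fun i j => x (some (i, j))

/-- Ring homomorphisms and tensors. -/
theorem FK_map {R S : Type} [CommRing R] [CommRing S] (f : R →+* S) {N : ℕ} (m : ℕ)
    (u : Matrix (Fin N) (Fin N) R) (t : Tn N m R) (I : Fin m → Fin N) :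
    f ((tp u m *ᵥ t) I) = (tp (u.map f) m *ᵥ fun J => f (t J)) I := by
  simp only [Matrix.mulVec, dotProduct, tp, map_sum, map_mul, map_prod, Matrix.map_apply]

/-- The theorem. -/
theorem FK (h1 : ND1_stmt) (h2 : ND2_stmt) (hPT : PT_stmt) (hBX : BX_stmt) (hDL : DL_stmt)
    (hDB : DB_stmt) (hHG : HG_stmt) (hBT : BT_stmt) (hDC : DC_stmt) (hTP : TP_stmt)
    {F : Type} [Field F] [CharZero F] {N : ℕ} {E : Type} (D : Datum F N E)
    (hcont : ∀ e, Continuous (D.h e)) (T : (m : ℕ) → Set (Tn N m ℚ))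
    (hT : ∀ X ∈ Kil T, ∃ Y ∈ gD D, ∃ z ∈ Zm D, X = Y + z)
    (e : E) (hb : ∀ m, ∀ t ∈ T m, Bec D e m t) :
    ∃ (L : Type) (_ : Field L) (_ : NumberField L) (C : Finset (Matrix (Fin N) (Fin N) L)),
      (∀ g ∈ C, IsUnit g ∧ ∀ m, ∀ t ∈ HZ D m, tp g m *ᵥ up L t ∈
        Submodule.span L (up L '' (D.Hodge e m : Set (Tn N m ℚ)))) ∧
      ∀ (K : Type) [Field K] [CharZero K] [IsAlgClosed K] (c : Matrix (Fin N) (Fin N) K),
        IsUnit c →
        (∀ m, ∀ t ∈ T m, ∀ s, Cor D e m t s → tp c m *ᵥ up K t = up K s) →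
        ∃ g ∈ C, ∃ τ : L →+* K, ∀ m, ∀ t ∈ HZ D m,
          tp c m *ᵥ up K t = tp (g.map τ) m *ᵥ up K t := by
  classical
  -- the generic matrix
  obtain ⟨X, hX⟩ : ∃ X : Matrix (Fin N) (Fin N) (MvPolynomial (Option (Fin N × Fin N)) ℚ),
      X = fun i j => MvPolynomial.X (some (i, j)) := ⟨_, rfl⟩
  -- the polynomials of a tensor
  obtain ⟨pl, hpl⟩ : ∃ pl : (m : ℕ) → Tn N m ℚ → (Fin m → Fin N) →
      MvPolynomial (Option (Fin N × Fin N)) ℚ,
      pl = fun m t I => (tp X m *ᵥ fun J => MvPolynomial.C (t J)) I := ⟨_, rfl⟩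
  have hev : ∀ (K : Type) [Field K] [CharZero K] (x : Option (Fin N × Fin N) → K) (m : ℕ)
      (t : Tn N m ℚ) (I : Fin m → Fin N), MvPolynomial.aeval x (pl m t I) =
        (tp (FK_mx x) m *ᵥ up K t) I := by
    intro K _ _ x m t I
    have g1 := FK_map (MvPolynomial.aeval x : MvPolynomial (Option (Fin N × Fin N)) ℚ →ₐ[ℚ] K).toRingHom
      m X (fun J => MvPolynomial.C (t J)) I
    rw [hpl]
    refine g1.trans ?_
    have g2 : X.map (MvPolynomial.aeval x : MvPolynomial (Option (Fin N × Fin N)) ℚ →ₐ[ℚ] K).toRingHom =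
        (FK_mx x) := by
      rw [hX]
      funext i j
      simp [Matrix.map_apply, FK_mx]
    rw [g2]
    have g3 : (fun J => (MvPolynomial.aeval x : MvPolynomial (Option (Fin N × Fin N)) ℚ →ₐ[ℚ] K).toRingHom
        (MvPolynomial.C (t J))) = up K t := by
      funext J
      simp [up]
    rw [g3]
  obtain ⟨dp, hdp⟩ : ∃ dp : MvPolynomial (Option (Fin N × Fin N)) ℚ,
      dp = MvPolynomial.X none * X.det - 1 := ⟨_, rfl⟩
  have hdet : ∀ (K : Type) [Field K] [CharZero K] (x : Option (Fin N × Fin N) → K),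
      MvPolynomial.aeval x dp =
        x none * (FK_mx x).det - 1 := by
    intro K _ _ x
    rw [hdp, map_sub, map_mul, map_one, MvPolynomial.aeval_X]
    have g1 : MvPolynomial.aeval x X.det =
        (FK_mx x).det := by
      rw [AlgHom.map_det]
      refine congrArg Matrix.det ?_
      rw [hX]
      funext i j
      simp [AlgHom.mapMatrix_apply, Matrix.map_apply, FK_mx]
    rw [g1]
  -- relations and functions
  let Is : Set (MvPolynomial (Option (Fin N × Fin N)) ℚ) :=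
    {f | f = dp ∨ ∃ m, ∃ t ∈ T m, ∃ s, Cor D e m t s ∧ ∃ I, f = pl m t I - MvPolynomial.C (s I)}
  let Ss : Set (MvPolynomial (Option (Fin N × Fin N)) ℚ) :=
    {f | ∃ m, ∃ t ∈ HZ D m, ∃ I, f = pl m t I}
  have hzero : ∀ (K : Type) [Field K] [CharZero K] (x : Option (Fin N × Fin N) → K),
      (∀ f ∈ Is, MvPolynomial.aeval x f = 0) →
      IsUnit (FK_mx x) ∧
      ∀ m, ∀ t ∈ T m, ∀ s, Cor D e m t s →
        tp (FK_mx x) m *ᵥ up K t = up K s := by
    intro K _ _ x hx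
    constructor
    · have g1 := hx dp (Or.inl rfl)
      rw [hdet K x, sub_eq_zero] at g1
      rw [Matrix.isUnit_iff_isUnit_det]
      exact IsUnit.of_mul_eq_one _ (by rw [mul_comm]; exact g1)
    · intro m t ht s hs
      funext I
      have g1 := hx (pl m t I - MvPolynomial.C (s I)) (Or.inr ⟨m, t, ht, s, hs, I, rfl⟩)
      rw [map_sub, hev K x m t I, sub_eq_zero] at g1
      rw [g1]
      simp [up]
  have hinv : ∀ (K : Type) [Field K] [CharZero K] (c : Matrix (Fin N) (Fin N) K), IsUnit c →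
      c * c⁻¹ = 1 ∧ c⁻¹ * c = 1 := by
    intro K _ _ c hc
    exact ⟨Matrix.mul_nonsing_inv _ ((Matrix.isUnit_iff_isUnit_det _).1 hc),
      Matrix.nonsing_inv_mul _ ((Matrix.isUnit_iff_isUnit_det _).1 hc)⟩
  have hb' : ∀ m, ∀ t ∈ T m, ∃ s, Cor D e m t s := by
    intro m t ht
    obtain ⟨s, hs, hcl⟩ := hb m t ht
    exact ⟨s, hs, hcl⟩
  obtain ⟨L, iL, nL, H, hH, hH'⟩ := hPT (Option (Fin N × Fin N)) Is Ss (by
    intro K _ _ x hx s hs
    obtain ⟨m, t, ht, I, rfl⟩ := hs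
    obtain ⟨hu, hrel⟩ := hzero K x hx
    rw [hev K x m t I]
    obtain ⟨i1, i2⟩ := hinv K _ hu
    refine FK_alg h1 h2 hBX hDL hDB hDC hTP D T hT K _ _ i1 i2 ?_ m t ht I
    intro n s hs
    obtain ⟨s', hs'⟩ := hb' n s hs
    exact ⟨s', hrel n s hs s' hs'⟩)
  refine ⟨L, iL, nL, H.image fun y => FK_mx y,
    ?_, ?_⟩
  · intro g hg
    obtain ⟨y, hy, rfl⟩ := Finset.mem_image.mp hg
    obtain ⟨hu, hrel⟩ := hzero L y (hH y hy)
    obtain ⟨i1, i2⟩ := hinv L _ hu
    refine ⟨hu, fun m t ht => ?_⟩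
    refine FK_span hBX hDL hDB hHG hBT hDC hTP D hcont T hT e L _ _ i1 i2 ?_ m t ht
    intro n s hs
    obtain ⟨s', hs'⟩ := hb' n s hs
    exact ⟨s', hs'.1, hrel n s hs s' hs'⟩
  · intro K _ _ _ c hc hrel
    obtain ⟨y, hy, τ, hτ⟩ := hH' K (fun o => o.elim (c.det)⁻¹ fun ij => c ij.1 ij.2) (by
      intro f hf
      have hcm : FK_mx (fun o : Option (Fin N × Fin N) =>
          o.elim (c.det)⁻¹ fun ij => c ij.1 ij.2) = c := by
        funext i j
        rfl
      rcases hf with rfl | ⟨m, t, ht, s, hs, I, rfl⟩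
      · rw [hdet K, hcm]
        have g2 : c.det ≠ 0 := ((Matrix.isUnit_iff_isUnit_det _).1 hc).ne_zero
        show (c.det)⁻¹ * c.det - 1 = 0
        rw [inv_mul_cancel₀ g2, sub_self]
      · rw [map_sub, hev K, hcm, hrel m t ht s hs]
        simp [up])
    refine ⟨_, Finset.mem_image_of_mem _ hy, τ, ?_⟩
    intro m t ht
    funext I
    have g1 := hτ (pl m t I) ⟨m, t, ht, I, rfl⟩
    rw [hev K, hev L] at g1
    refine g1.trans ?_
    rw [FK_map τ m _ (up L t) I]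
    have g2 : (fun J => τ (up L t J)) = up K t := by
      funext J
      simp [up]
    rw [g2]

end Pool.Agent.FPZ
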