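import Pool.Agent.helper55.FPZ.MZ

/-!
# Project FPZ: rows MN1, MN2
-/

set_option autoImplicit false

namespace Pool.Agent.FPZ

open Matrix Polynomial Pool.Agent.PL Pool.Agent.X4

theorem MN_spanT (hDL : DL_stmt) {F : Type} [Field F] {N : ℕ} (A : Matrix (Fin N) (Fin N) F)
    (m : ℕ) (S : Set (Tn N m F)) (h : ∀ t ∈ S, der A m t = 0) (t : Tn N m F)
    (ht : t ∈ Submodule.span F S) : der A m t = 0 := by
  induction ht using Submodule.span_induction with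
  | mem x hx => exact h x hx
  | zero =>
    funext I
    simp [der]
  | add x y _ _ hx hy => rw [(hDL N m F A A x y 0).2.2.1, hx, hy, add_zero]
  | smul c x _ hx => rw [(hDL N m F A A x x c).2.2.2.1, hx, smul_zero]

theorem MN1 (hSS : SS_stmt) (hDG : DG_stmt) (hGZ : GZ_stmt) (hXI : XI_stmt) (hHOD : HOD_stmt)
    (hKIL : KIL_stmt) (hSPB : SPB_stmt) (hHG : HG_stmt) (hBT : BT_stmt) (hDC : DC_stmt)
    (hDL : DL_stmt) (hDB : DB_stmt) (hTP : TP_stmt) : MN1_stmt := by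
  intro F _ _ _ N E D hcont T hTH hT e hA hb m t ht
  obtain ⟨G, hG, hGd⟩ := hDG F N (Zm D)
    (fun z hz z' hz' => (hGZ F N E D hcont).2.2.1 z hz z' hz') (hSS F N E D)
  refine MZ_span hHG hBT hDC hTP D hcont e m t ?_
  intro X hX
  obtain ⟨B, hB, C, hC, hAe⟩ := hSPB F N E D T hT
    ((D.P D.base)⁻¹ * D.P e * cst F X * ((D.P e)⁻¹ * D.P D.base))
    (fun n s hs => MZ_bec hDB hDC hTP D e n s (hb n s hs) X hX)
  rw [hAe]
  refine hKIL F N E D hcont G hG hGd m t ht B hB C hC ?_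
  intro I hI
  obtain ⟨M, w, hw⟩ := hXI F N (dg D G) m I
  refine ⟨M, w, hw, ?_⟩
  rw [← hAe]
  have h1 := hHOD F N E D hcont G hG hGd m t ht I hI M w hw
  have hue : (D.P e)⁻¹ * D.P e = 1 :=
    Matrix.nonsing_inv_mul _ ((Matrix.isUnit_iff_isUnit_det _).1 (D.isUnit e))
  have hue' : D.P e * (D.P e)⁻¹ = 1 :=
    Matrix.mul_nonsing_inv _ ((Matrix.isUnit_iff_isUnit_det _).1 (D.isUnit e))
  have hub : (D.P D.base)⁻¹ * D.P D.base = 1 :=
    Matrix.nonsing_inv_mul _ ((Matrix.isUnit_iff_isUnit_det _).1 (D.isUnit D.base))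
  have hub' : D.P D.base * (D.P D.base)⁻¹ = 1 :=
    Matrix.mul_nonsing_inv _ ((Matrix.isUnit_iff_isUnit_det _).1 (D.isUnit D.base))
  have hform : (D.P D.base)⁻¹ * D.P e * cst F X * ((D.P e)⁻¹ * D.P D.base) =
      (D.P D.base)⁻¹ * (D.P e * cst F X * (D.P e)⁻¹) * D.P D.base := by
    simp only [Matrix.mul_assoc]
  have hform2 : (D.P e)⁻¹ * (D.P e * cst F X * (D.P e)⁻¹) * D.P e = cst F X := by
    have : (D.P e)⁻¹ * (D.P e * cst F X * (D.P e)⁻¹) * D.P e =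
        ((D.P e)⁻¹ * D.P e) * cst F X * ((D.P e)⁻¹ * D.P e) := by
      simp only [Matrix.mul_assoc]
    rw [this, hue, Matrix.one_mul, Matrix.mul_one]
  refine MN_spanT hDL _ M _ ?_ _ h1
  rintro _ ⟨w0, hw0, rfl⟩
  rw [hform, MZ_conj hDC hTP (D.P D.base) (D.P D.base)⁻¹ _ hub' hub M (up F w0)]
  refine MN_spanT hDL _ M _ ?_ _ (hA M w0 hw0)
  rintro _ ⟨s, hs, rfl⟩
  have h2 : der (cst F X) M (up F s) = 0 := by
    rw [← hDB N M F X s, hX M s hs]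
    funext I
    simp [up]
  rw [← hform2, MZ_conj hDC hTP (D.P e) (D.P e)⁻¹ _ hue' hue M (up F s)] at h2
  exact h2

theorem MN2 (hSS : SS_stmt) (hDG : DG_stmt) (hGZ : GZ_stmt) (hKIL : KIL_stmt) (hSPB : SPB_stmt)
    (hFT : FT_stmt) (hOM : OM_stmt) (hLG : LG_stmt) (hNB : NB_stmt) (hDC : DC_stmt)
    (_hDL : DL_stmt) (_hDB : DB_stmt) (hTP : TP_stmt) : MN2_stmt := by
  intro F _ _ _ _ l hl hlF N E D hcont T hTH hT Γ _ _ _ _ ga frob hA ho
  classical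
  obtain ⟨G, hG, hGd⟩ := hDG F N (Zm D)
    (fun z hz z' hz' => (hGZ F N E D hcont).2.2.1 z hz z' hz') (hSS F N E D)
  obtain ⟨S, hST, hS⟩ := hFT N T
  obtain ⟨U1, hU1, hU1'⟩ := MZ_finset D ga S fun s hs => ho s.1 s.2 (hST s hs)
  have hl0 : 0 < ‖(l : F)‖ := by
    rw [norm_pos_iff]
    exact Nat.cast_ne_zero.mpr hl.ne_zero
  have hc0 : 0 < ‖(l : F)‖ ^ 2 := by positivity
  have hc1 : ‖(l : F)‖ ^ 2 < 1 := pow_lt_one₀ hl0.le hlF (by norm_num)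
  obtain ⟨U0, hU0, hU0'⟩ := hNB F N Γ ga.R ga.cont (‖(l : F)‖ ^ 2) hc0 hc1
  obtain ⟨Pi, hPPi⟩ : ∃ Pi, D.P D.base * Pi = 1 := (D.isUnit D.base).exists_right_inv
  have hPiP : Pi * D.P D.base = 1 := mul_eq_one_comm.mp hPPi
  refine ⟨U0 ⊓ U1, ?_, ?_⟩
  · rw [Subgroup.coe_inf]
    exact hU0.inter hU1
  intro σ hσ m t ht
  obtain ⟨hσ0, hσ1⟩ := Subgroup.mem_inf.mp hσ
  have key : tp (ga.R σ) m *ᵥ D.cls D.base m t = D.cls D.base m t := by
    have hOM' : ∀ I : Fin m → Fin N, ∃ s : Σ M : ℕ, Tn N M F,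
        (tp G⁻¹ m *ᵥ up F t) I ≠ 0 → Eig (dg D G) s.1 s.2 (ch (dg D G) m I) ∧
          tp (ga.R σ) s.1 *ᵥ (tp (D.P D.base) s.1 *ᵥ (tp G s.1 *ᵥ s.2)) =
            tp (D.P D.base) s.1 *ᵥ (tp G s.1 *ᵥ s.2) := by
      intro I
      by_cases hI : (tp G⁻¹ m *ᵥ up F t) I ≠ 0
      · obtain ⟨M, w, hw, hfix⟩ := hOM F l hl hlF N E D hcont Γ ga frob hA G hG hGd m t ht I hI
        exact ⟨⟨M, w⟩, fun _ => ⟨hw, hfix σ fun i j => hU0' σ hσ0 i j⟩⟩
      · exact ⟨⟨0, 0⟩, fun h => absurd h hI⟩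
    choose W hW using hOM'
    refine hLG F l hl hlF N
      ((S.image fun s => (⟨s.1, D.cls D.base s.1 s.2⟩ : Σ m : ℕ, Tn N m F)) ∪
        ((Finset.univ.filter fun I : Fin m → Fin N => (tp G⁻¹ m *ᵥ up F t) I ≠ 0).image fun I =>
          (⟨(W I).1, tp (D.P D.base) (W I).1 *ᵥ (tp G (W I).1 *ᵥ (W I).2)⟩ :
            Σ m : ℕ, Tn N m F))) m
      (D.cls D.base m t) ?_ (ga.R σ) (fun i j => hU0' σ hσ0 i j) ?_
    · intro A hA'
      obtain ⟨B, hB, C, hC, hAe⟩ := hSPB F N E D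
        (fun n => {s | (⟨n, s⟩ : Σ m : ℕ, Tn N m ℚ) ∈ S}) (by
          intro X hX
          refine hT X (hS X ?_)
          rintro ⟨n, s⟩ hs
          exact hX n s hs) (Pi * A * D.P D.base) (by
          intro n s hs
          rw [MZ_conj hDC hTP (D.P D.base) Pi A hPPi hPiP n (up F s)]
          exact hA' ⟨n, D.cls D.base n s⟩ (Finset.mem_union_left _
            (Finset.mem_image_of_mem (fun s : Σ m : ℕ, Tn N m ℚ =>
              (⟨s.1, D.cls D.base s.1 s.2⟩ : Σ m : ℕ, Tn N m F)) hs)))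
      have h1 := hKIL F N E D hcont G hG hGd m t ht B hB C hC (by
        intro I hI
        refine ⟨(W I).1, (W I).2, (hW I hI).1, ?_⟩
        rw [← hAe, MZ_conj hDC hTP (D.P D.base) Pi A hPPi hPiP _ _]
        exact hA' ⟨(W I).1, tp (D.P D.base) (W I).1 *ᵥ (tp G (W I).1 *ᵥ (W I).2)⟩
          (Finset.mem_union_right _ (Finset.mem_image_of_mem (fun I : Fin m → Fin N =>
            (⟨(W I).1, tp (D.P D.base) (W I).1 *ᵥ (tp G (W I).1 *ᵥ (W I).2)⟩ :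
              Σ m : ℕ, Tn N m F)) (Finset.mem_filter.mpr ⟨Finset.mem_univ _, hI⟩))))
      rw [← hAe, MZ_conj hDC hTP (D.P D.base) Pi A hPPi hPiP m (up F t)] at h1
      exact h1
    · intro s hs
      rcases Finset.mem_union.mp hs with hs | hs
      · obtain ⟨x, hx, rfl⟩ := Finset.mem_image.mp hs
        exact hU1' σ hσ1 x hx
      · obtain ⟨I, hI, rfl⟩ := Finset.mem_image.mp hs
        exact (hW I (Finset.mem_filter.mp hI).2).2
  refine ⟨key, ?_, ?_⟩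
  · intro z
    have := ht z
    rw [ga.tw_h σ]
    exact this
  · have e1 : D.cls (ga.tw σ) m t = tp (ga.R σ) m *ᵥ D.cls D.base m t := by
      unfold Datum.cls
      rw [ga.tw_P σ, (hTP N m F (ga.R σ) (D.P D.base)).1, Matrix.mulVec_mulVec]
    rw [e1, key]

end Pool.Agent.FPZ
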