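import Pool.Agent.helper55.FPZ.SpecK

/-!
# Project FPZ, fourth part: the comparison isomorphisms on ALL Hodge classes, no condition on CM factors

THEOREM (`KZ`). `T` an ample family of Hodge tensors (base embedding) which is absolutely Hodge at `e`: the tensors
of `T` become Hodge tensors for `e`, the same in all realisations (all `ℓ`, de Rham). There is a FINITE set `C` of
invertible matrices over the algebraic closure `QB` of `ℚ` such that for every algebraically closed `K`, every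
embedding `τ` of `QB` and every matrix `c` over `K` compatible with `T` (the comparison isomorphism from `base`
to `e` in a realisation) there are `g ∈ C` and `z` in the torus `T_Z` (`z` fixes all tensors killed by `Zm`) with
`c^(⊗m) t = (τ(g) z)^(⊗m) t` for ALL Hodge tensors `t` of ALL orders `m`.

PROOF. `G` diagonalises `Zm` over `QB`. A tensor `y` over `QB` (in the basis `G`) is called `GI` if it is killed by `g = gD`,
homogeneous if all `I` with `y I ≠ 0` have the same weight `∑_k d (I k)`. Let `y ≠ 0` be `GI` and homogeneous. (1) For a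
derivation `δ` of `K` the matrix `X = c⁻¹ δ(c)` kills `T`, so `X = B + C`, `B ∈ K g`, `C ∈ K Zm`, and `δ` of
`u = (c G)^(⊗m) y` is `γ u`. So the quotients of the coordinates of `u` are killed by all derivations, so they are in `QB`: `u = μ v`,
`v` over `QB`; `u` itself is over `QB` if the weight is `0`. (2) The matrices `c` are the points of a variety over `ℚ`, with finitely many
components over `QB`; choose a point `g` in each of them. By (1) for the generic point the vectors `(c G)^(⊗m) y` and `(g G)^(⊗m) y` are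
proportional if `c` is in the component of `g`, and equal if the weight is `0`. (3) So `u = (g G)⁻¹ c G` acts by a scalar on `y`. The form `Q`
gives for each `y` a `GI` tensor `y'` of the opposite weight (polarisation). So the pairs (weight, scalar) form a group which is the graph of a
homomorphism of a subgroup of `ℤ^N` to `Kˣ`; as `Kˣ` is divisible it extends to `ℤ^N`: this gives `z`.

RULES as in Spec.lean; `import Pool.Agent.helper55.FPZ.SpecZ`.
-/

set_option autoImplicit false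

namespace Pool.Agent.FPZ

open Matrix Polynomial Pool.Agent.PL Pool.Agent.X4

/-- The algebraic numbers. -/
abbrev QB : Type := AlgebraicClosure ℚ

section DefsZ

variable {F : Type} [Field F] [CharZero F] {N : ℕ} {E : Type}

/-- The matrix `c` maps the tensors of `T` to the corresponding Hodge tensors for `e`. -/
def Cmp (D : Datum F N E) (e : E) (T : (m : ℕ) → Set (Tn N m ℚ)) {K : Type} [Field K]
    (c : Matrix (Fin N) (Fin N) K) : Prop :=
  IsUnit c ∧ ∀ m, ∀ t ∈ T m, ∀ s ∈ D.Hodge e m, D.cls e m s = D.cls D.base m t →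
    tp c m *ᵥ up K t = up K s

/-- The diagonal matrices of the elements of `Zm D` in the basis `G`. -/
def dz (D : Datum F N E) (G : Matrix (Fin N) (Fin N) QB) : Set (Fin N → QB) :=
  {d | ∃ z ∈ Zm D, cst QB z * G = G * diagonal d}

/-- `G` diagonalises `Zm D`. -/
def Dia (D : Datum F N E) (G : Matrix (Fin N) (Fin N) QB) : Prop :=
  IsUnit G ∧ ∀ z ∈ Zm D, ∃ d : Fin N → QB, cst QB z * G = G * diagonal d

/-- The tensor `y` (coordinates in the basis `G`) is killed by the Lie algebra `gD D`. -/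
def GI (D : Datum F N E) (G : Matrix (Fin N) (Fin N) QB) (m : ℕ) (y : Tn N m QB) : Prop :=
  ∀ Y ∈ gD D, der (G⁻¹ * cst QB Y * G) m y = 0

/-- All `I` with `y I ≠ 0` have the weight of `a`. -/
def Wt (A : Set (Fin N → QB)) (m : ℕ) (y : Tn N m QB) (a : Fin N → ℤ) : Prop :=
  ∀ I, y I ≠ 0 → ∀ d ∈ A, ∑ k, d (I k) = ∑ i, (a i : QB) * d i

/-- The weight of `a` is `0`. -/
def W0 (A : Set (Fin N → QB)) (a : Fin N → ℤ) : Prop := ∀ d ∈ A, ∑ i, (a i : QB) * d i = 0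

/-- Base change of a tensor over `QB`. -/
noncomputable def tu {K : Type} [Field K] (τ : QB →+* K) {m : ℕ} (y : Tn N m QB) : Tn N m K := fun I => τ (y I)

end DefsZ

/-- `KA` (short; copy of `Pool/Agent/helper42/FPZ/ND1.lean`). There `y = up t`. -/
def KA_stmt : Prop := ∀ (K : Type) [Field K] [CharZero K] (N m : ℕ) (δ : Derivation ℚ K K)
  (c c' : Matrix (Fin N) (Fin N) K), c' * c = 1 → ∀ y : Tn N m K, (∀ I, δ (y I) = 0) →
  (fun I => δ ((tp c m *ᵥ y) I)) = der ((c.map fun x => δ x) * c') m (tp c m *ᵥ y)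

/-- `KB` (short-medium; `ND2_stmt`). PROOF. `→`: `x` is algebraic (`ND2`); its minimal polynomial over `ℚ` splits in `QB`, so (apply `τ`)
its roots in `K` are in the image of `τ`. `←`: `a` is algebraic over `ℚ`, `f` its minimal polynomial: `0 = δ (f (τ a)) = f' (τ a) * δ (τ a)`
(`Derivation` and `aeval`), and `f' (τ a) ≠ 0` (separable). -/
def KB_stmt : Prop := ∀ (K : Type) [Field K] [CharZero K] (τ : QB →+* K) (x : K),
  (∀ δ : Derivation ℚ K K, δ x = 0) ↔ ∃ a, τ a = x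

/-- `KC` (medium; `KA_stmt`, `KB_stmt`, `DD_stmt`, `X4.BX_stmt`, `X4.DL_stmt`, `X4.DC_stmt`, `X4.TP_stmt`). Compare `FK_alg` in `Pool/Agent/helper55/FPZ/FK.lean`.
PROOF. `c' = c⁻¹`, `X = c' δ(c)`. For `s ∈ T m` there is `s' ∈ Hodge e m` with the same class (`Bec`), `tp c (up s) = up s'`, `δ` of it is `0`, so (`KA`, `DC`)
`tp c (der X (up s)) = 0`, `der X (up s) = 0`. By `BX` `X` is in the span of `cst K '' Kil T`, so `X = B + C`, `B ∈ span (cst K '' gD)`, `C ∈ span (cst K '' Zm)`. Let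
`G' = G.map τ`, `ĉ = c G'` with the inverse `ĉ' = G'⁻¹ c'`: `δ(ĉ) = δ(c) G'` (`KB`), `ĉ' δ(ĉ) = G'⁻¹ X G'`. `KA`, `DC` for `ĉ`: `δ (tp ĉ (tu y)) = tp ĉ (der (G'⁻¹ X G') (tu y))`
(`δ (τ (y I)) = 0` by `KB`). `der (G'⁻¹ B G') (tu y) = 0` (`GI`, linearity; `G'⁻¹ (cst K Y) G' = (G⁻¹ (cst QB Y) G).map τ`, `der (Z.map τ) (tu y) = tu (der Z y)`).
`G'⁻¹ (cst K z) G' = diagonal (τ ∘ d)`, `d ∈ dz D G`; so `G'⁻¹ C G' = diagonal γ'`, `γ'` a `K`-combination of the `τ ∘ d`, and by `DD` and `Wt`: `der (diagonal γ') (tu y) =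
(∑_i a i * γ' i) • tu y`. -/
def KC_stmt : Prop := ∀ (F : Type) [Field F] [CharZero F] (N : ℕ) (E : Type) (D : Datum F N E),
  (∀ e, Continuous (D.h e)) → ∀ T : (m : ℕ) → Set (Tn N m ℚ),
  (∀ X ∈ Kil T, ∃ Y ∈ gD D, ∃ z ∈ Zm D, X = Y + z) →
  ∀ e : E, (∀ m, ∀ t ∈ T m, Bec D e m t) → ∀ G : Matrix (Fin N) (Fin N) QB, Dia D G →
  ∀ (K : Type) [Field K] [CharZero K] (τ : QB →+* K) (c : Matrix (Fin N) (Fin N) K),
  Cmp D e T c → ∀ (m : ℕ) (y : Tn N m QB) (a : Fin N → ℤ), GI D G m y → Wt (dz D G) m y a →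
  ∀ δ : Derivation ℚ K K, ∃ γ : K, (W0 (dz D G) a → γ = 0) ∧
    ∀ I, δ ((tp (c * G.map τ) m *ᵥ tu τ y) I) = γ * (tp (c * G.map τ) m *ᵥ tu τ y) I

/-- `KD` (short-medium; `KC_stmt`, `KB_stmt`, `X4.TP_stmt`). PROOF. `u = tp (c G') (tu y) ≠ 0` (`c G'` is invertible, `τ` injective). If `W0`: `δ (u I) = 0` for all `δ`, so
`u I = τ (v I)` (`KB`), `μ = 1`. Otherwise `u I₀ ≠ 0`; `δ (u I / u I₀) = 0` (`δ (u I) u I₀ = γ u I u I₀ = u I δ (u I₀)`), so `u I / u I₀ = τ (v I)`, `μ = u I₀`. -/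
def KD_stmt : Prop := ∀ (F : Type) [Field F] [CharZero F] (N : ℕ) (E : Type) (D : Datum F N E),
  (∀ e, Continuous (D.h e)) → ∀ T : (m : ℕ) → Set (Tn N m ℚ),
  (∀ X ∈ Kil T, ∃ Y ∈ gD D, ∃ z ∈ Zm D, X = Y + z) →
  ∀ e : E, (∀ m, ∀ t ∈ T m, Bec D e m t) → ∀ G : Matrix (Fin N) (Fin N) QB, Dia D G →
  ∀ (K : Type) [Field K] [CharZero K] (τ : QB →+* K) (c : Matrix (Fin N) (Fin N) K),
  Cmp D e T c → ∀ (m : ℕ) (y : Tn N m QB) (a : Fin N → ℤ), y ≠ 0 → GI D G m y →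
  Wt (dz D G) m y a → ∃ (v : Tn N m QB) (μ : K), v ≠ 0 ∧ μ ≠ 0 ∧
    tp (c * G.map τ) m *ᵥ tu τ y = μ • tu τ v ∧ (W0 (dz D G) a → μ = 1)

/-- `KE` (medium, only Mathlib). Finitely many components. PROOF. `R = MvPolynomial σ QB`, `J` = the ideal generated by the images of `I`
(`MvPolynomial.map (algebraMap ℚ QB)`). `R` is Noetherian: finitely many minimal primes `𝔭` of `J` (`Ideal.finite_minimalPrimes_of_isNoetherianRing`). For each of them choose a
zero `y` of `𝔭` over `QB` (Nullstellensatz: a maximal ideal containing `𝔭` is `vanishingIdeal {y}`, `MvPolynomial.isMaximal_iff_eq_vanishingIdeal_singleton`); `K' = FractionRing (R ⧸ 𝔭)`, `ξ i` = the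
class of `X i`, so `eval₂ τ' ξ f = 0` iff `f ∈ 𝔭`. `H` = the set of the `y`. Given `x`: the kernel of `MvPolynomial.eval₂Hom τ x` is a prime ideal containing `J`, so it contains a minimal prime `𝔭`
of `J` (`Ideal.exists_minimalPrimes_le`). (Ring homomorphisms commute with `algebraMap ℚ`.) -/
def KE_stmt : Prop := ∀ (σ : Type) [Finite σ] (I : Set (MvPolynomial σ ℚ)),
  ∃ H : Finset (σ → QB), (∀ y ∈ H, ∀ f ∈ I, MvPolynomial.aeval y f = 0) ∧
    ∀ (K : Type) [Field K] [CharZero K] (τ : QB →+* K) (x : σ → K),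
      (∀ f ∈ I, MvPolynomial.aeval x f = 0) →
      ∃ y ∈ H, ∃ (K' : Type) (_ : Field K') (_ : CharZero K') (τ' : QB →+* K') (ξ : σ → K'),
        (∀ f ∈ I, MvPolynomial.aeval ξ f = 0) ∧
        ∀ f : MvPolynomial σ QB, MvPolynomial.eval₂ τ' ξ f = 0 →
          MvPolynomial.eval₂ τ x f = 0 ∧ MvPolynomial.eval y f = 0

/-- `KF` (medium; `KD_stmt`, `KE_stmt`, `X4.TP_stmt`). Compare the proof of `FK` in `Pool/Agent/helper55/FPZ/FK.lean`, which has the polynomials (`σ = Option (Fin N × Fin N)`, the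
generic matrix, the relations, the determinant). PROOF. `KE` gives `H`, `C` = the set of the matrices of its points; they are `Cmp` (as in `FK`). Given `c`: its point `x`, `y₀ ∈ H` with the
matrix `g`, and `K'`, `τ'`, `ξ` with the matrix `Ξ`, which is `Cmp`. For `y`, `a`: `KD` for `K'`, `Ξ`: `v`, `μ'`. The polynomials `(tp (X * C G) y)_J v_J' - (tp (X * C G) y)_J' v_J` over `QB` vanish at `ξ`, so
at `c` and `g`. `v J₀ ≠ 0`: `tp (c G') (tu y) = κ • tu v`, `tp (g G) y = κ' • v`, `κ, κ' ≠ 0` (invertible matrices, `y ≠ 0`); `k = κ / τ κ'`. If `W0`: `μ' = 1`, the polynomials `(tp (X * C G) y)_J - v_J` vanish at `ξ`, so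
`κ = 1`, `κ' = 1`. -/
def KF_stmt : Prop := ∀ (F : Type) [Field F] [CharZero F] (N : ℕ) (E : Type) (D : Datum F N E),
  (∀ e, Continuous (D.h e)) → ∀ T : (m : ℕ) → Set (Tn N m ℚ),
  (∀ X ∈ Kil T, ∃ Y ∈ gD D, ∃ z ∈ Zm D, X = Y + z) →
  ∀ e : E, (∀ m, ∀ t ∈ T m, Bec D e m t) → ∀ G : Matrix (Fin N) (Fin N) QB, Dia D G →
  ∃ C : Finset (Matrix (Fin N) (Fin N) QB), (∀ g ∈ C, Cmp D e T g) ∧
    ∀ (K : Type) [Field K] [CharZero K] (τ : QB →+* K) (c : Matrix (Fin N) (Fin N) K),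
      Cmp D e T c → ∃ g ∈ C, ∀ (m : ℕ) (y : Tn N m QB) (a : Fin N → ℤ), y ≠ 0 → GI D G m y →
        Wt (dz D G) m y a → ∃ k : K, k ≠ 0 ∧
          tp (c * G.map τ) m *ᵥ tu τ y = k • (tp (g.map τ * G.map τ) m *ᵥ tu τ y) ∧
          (W0 (dz D G) a → k = 1)

/-- `KG` (medium, only Mathlib). PROOF. `S` is a subgroup of `ℤ^N × Kˣ`, the graph of a homomorphism `f : Λ → Kˣ`, `Λ = {a | ∃ k, (a, k) ∈ S}` (the last hypothesis: `k` is determined by `a`). The
group `Kˣ` is divisible (`K` algebraically closed: `x ^ n = k` has a solution), so `Additive Kˣ` is an injective `ℤ`-module (`AddCommGrp.injective_of_divisible`, `Module.Baer.of_divisible`,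
`Module.Baer.extension_property`) and `f` extends to `ℤ^N → Kˣ`; `ζ i` = the image of the basis vector `Pi.single i 1`. (Or: `Λ` and `ℤ^N` have adapted bases, `Submodule.smithNormalForm`.) -/
def KG_stmt : Prop := ∀ (N : ℕ) (K : Type) [Field K] [IsAlgClosed K]
  (S : Set ((Fin N → ℤ) × Kˣ)), (∀ p ∈ S, ∀ q ∈ S, (p.1 + q.1, p.2 * q.2) ∈ S) →
  (∀ p ∈ S, (-p.1, p.2⁻¹) ∈ S) → (0, 1) ∈ S → (∀ k, (0, k) ∈ S → k = 1) →
  ∃ ζ : Fin N → Kˣ, ∀ p ∈ S, ∏ i, ζ i ^ (p.1 i) = p.2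

/-- `KP` (short-medium; `X4.TP_stmt`). Positivity. PROOF. `Q = cst ℝ (D.Q D.base)`, `C = D.h D.base iC`, `Q C = Rᵀ R`, `R` invertible (`D.pos`; as in the proof of `X4.ND`, `Pool/Agent/*/X4/ND.lean`). `t = tp C t`
(real), so the sum is `tᵀ (tp Q) t = tᵀ (tp (Q C)) t = |tp R t| ^ 2` (`tp Rᵀ = (tp R)ᵀ`), so `tp R t = 0`, `t = 0`. -/
def KP_stmt : Prop := ∀ (F : Type) [Field F] [CharZero F] (N : ℕ) (E : Type) (D : Datum F N E)
  (m : ℕ), ∀ t ∈ D.Hodge D.base m, t ⬝ᵥ (tp (D.Q D.base) m *ᵥ t) = 0 → t = 0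

/-- `KR` (short-medium; `GZ_stmt`). PROOF. `Ỹ = G⁻¹ (cst Y) G` commutes with `diagonal d`, `d ∈ dz D G` (`GZ` (1), `Zm ⊂ EndH`), so `Ỹ i j (d j - d i) = 0`. In `(der Ỹ y) I = ∑_k ∑_j Ỹ (I k) j y (update I k j)` the terms
with `Ỹ (I k) j ≠ 0` have `d j = d (I k)` for all `d ∈ dz D G`, so `update I k j` has the weight of `I` and `p (update I k j) ↔ p I`. So `der Ỹ` of the new tensor is `if p I then (der Ỹ y) I else 0 = 0`. -/
def KR_stmt : Prop := ∀ (F : Type) [Field F] [CharZero F] (N : ℕ) (E : Type) (D : Datum F N E),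
  (∀ e, Continuous (D.h e)) → ∀ G : Matrix (Fin N) (Fin N) QB, Dia D G →
  ∀ (m : ℕ) (y : Tn N m QB), GI D G m y → ∀ (p : (Fin m → Fin N) → Prop) [DecidablePred p],
  (∀ I J, (∀ d ∈ dz D G, ∑ k, d (I k) = ∑ k, d (J k)) → (p I ↔ p J)) →
  GI D G m (fun I => if p I then y I else 0)

/-- `KH` (medium; `KP_stmt`, `KR_stmt`, `GZ_stmt`, `X4.BC_stmt`, `X4.DC_stmt`, `X4.DB_stmt`, `X4.DL_stmt`, `X4.TP_stmt`). Duality. PROOF. `Q = cst QB (D.Q D.base)`, `S = Gᵀ Q G`. For `d ∈ dz D G` (`z`): `zᵀ Q + Q z = 0`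
gives `S i j (d i + d j) = 0`. Let `q(x, r) = x ⬝ᵥ (tp S m *ᵥ r)`. (1) There is a `GI` tensor `r` with `q(y, r) ≠ 0`: otherwise `y₁ = tp G y` satisfies `der (cst Y) y₁ = 0` for `Y ∈ gD` (`DC`) and, as `r = tp G⁻¹ (up t)` is `GI` for
`t ∈ Hodge base m`, `y₁ ⬝ᵥ (tp Q m *ᵥ up t) = 0` (`tp S = (tp G)ᵀ (tp Q) (tp G)`); these are rational linear equations, so by `BC` `y₁` is in the span of the rational solutions `y₀`; `y₀` is killed by `gD`, so it is in `Hodge base m` (`GZ` (2)), and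
`y₀ ⬝ᵥ (tp (D.Q D.base) m *ᵥ y₀) = 0`, so `y₀ = 0` (`KP`). So `y₁ = 0`, `y = 0`. (2) `y' J = r J` if `∑_k d (J k) = - ∑_i a i * d i` for all `d ∈ dz D G`, else `0`: `GI` by `KR`, weight `-a`, and
`q(y, y') = q(y, r)`: if `y I ≠ 0` and `∏_k S (I k) (J k) ≠ 0` then `∑_k d (I k) + ∑_k d (J k) = 0`. So `y' ≠ 0`. -/
def KH_stmt : Prop := ∀ (F : Type) [Field F] [CharZero F] (N : ℕ) (E : Type) (D : Datum F N E),
  (∀ e, Continuous (D.h e)) → ∀ G : Matrix (Fin N) (Fin N) QB, Dia D G →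
  ∀ (m : ℕ) (y : Tn N m QB) (a : Fin N → ℤ), y ≠ 0 → GI D G m y → Wt (dz D G) m y a →
  ∃ y' : Tn N m QB, y' ≠ 0 ∧ GI D G m y' ∧ Wt (dz D G) m y' (-a)

/-- `KI` (medium; `KG_stmt`, `KH_stmt`, `KR_stmt`, `TM_stmt`). PROOF. `S` = the set of the `(a, k)` such that there are `m`, `y ≠ 0`, `GI`, `Wt (dz D G) m y a`, with `tp u m *ᵥ tu τ y = k • tu τ y`. Products: `tmul y y'` (`TM`; `GI` by
the formula for `der`, weight `a + a'` : `Fin.sum_univ_add`). `(0, 1)`: `m = 0`, `y = 1`. Inverses: `y'` from `KH` has a scalar `k'`; `tmul y y'` has the weight `0`, so `k k' = 1`. `(0, k)`: `k = 1`. `KG` gives `ζ`. Second claim: for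
`I` with `∑_k d (I k) = 0` let `a i` = the number of `k` with `I k = i`; `(a, 1) ∈ S` (`m = 0`, `y = 1`), so `∏_k ζ (I k) = ∏_i ζ i ^ a i = 1`. Third claim: `y` is the (finite) sum of the tensors `y_w J = if (∀ d ∈ dz D G, ∑_k d (J k) = w d) then y J else 0`
over the weights `w` of the multiindices (for example: sum over the image of `I ↦ (fun d : dz D G => ∑_k d (I k))`), they are `GI` (`KR`); if `y_w J ≠ 0` then `y_w` has the weight `a i = #{k | J k = i}`, so `(a, k_w) ∈ S` and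
`∏_k ζ (J k) = k_w`: so `tp (diagonal ζ) (tu y_w) = k_w • tu y_w = tp u (tu y_w)`. -/
def KI_stmt : Prop := ∀ (F : Type) [Field F] [CharZero F] (N : ℕ) (E : Type) (D : Datum F N E),
  (∀ e, Continuous (D.h e)) → ∀ G : Matrix (Fin N) (Fin N) QB, Dia D G →
  ∀ (K : Type) [Field K] [CharZero K] [IsAlgClosed K] (τ : QB →+* K)
  (u : Matrix (Fin N) (Fin N) K),
  (∀ (m : ℕ) (y : Tn N m QB) (a : Fin N → ℤ), y ≠ 0 → GI D G m y → Wt (dz D G) m y a →
    ∃ k : K, k ≠ 0 ∧ tp u m *ᵥ tu τ y = k • tu τ y ∧ (W0 (dz D G) a → k = 1)) →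
  ∃ ζ : Fin N → K, (∀ i, ζ i ≠ 0) ∧
    (∀ (m : ℕ) (I : Fin m → Fin N), (∀ d ∈ dz D G, ∑ k, d (I k) = 0) → ∏ k, ζ (I k) = 1) ∧
    ∀ (m : ℕ) (y : Tn N m QB), GI D G m y →
      tp u m *ᵥ tu τ y = tp (diagonal ζ) m *ᵥ tu τ y

end Pool.Agent.FPZ
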