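import Pool.Agent.helper55.FPZ.FK
import Pool.Agent.helper55.FPZ.SpecZ

/-!
# Project FPZ: the comparison isomorphisms on all Hodge classes
-/

set_option autoImplicit false

namespace Pool.Agent.FPZ

open Matrix Polynomial Pool.Agent.PL Pool.Agent.X4

/-- The torus with the Lie algebra generated by `Zm D`: the matrices which fix all tensors killed by
`Zm D`. -/
def TZ {F : Type} [Field F] [CharZero F] {N : ℕ} {E : Type} (D : Datum F N E) (K : Type) [Field K]
    [CharZero K] (z : Matrix (Fin N) (Fin N) K) : Prop :=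
  IsUnit z ∧ ∀ (m : ℕ) (x : Tn N m K), (∀ y ∈ Zm D, der (cst K y) m x = 0) → tp z m *ᵥ x = x

theorem KZ_diag {K : Type} [Field K] {N : ℕ} (ζ : Fin N → K) (m : ℕ) (x : Tn N m K)
    (I : Fin m → Fin N) : (tp (diagonal ζ) m *ᵥ x) I = (∏ k, ζ (I k)) * x I := by
  simp only [Matrix.mulVec, dotProduct, tp]
  rw [Finset.sum_eq_single I]
  · refine congrArg (· * x I) (Finset.prod_congr rfl fun k _ => ?_)
    rw [Matrix.diagonal_apply_eq]
  · intro J _ hJ
    obtain ⟨k, hk⟩ : ∃ k, I k ≠ J k := by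
      by_contra hcon
      push Not at hcon
      exact hJ (funext fun k => (hcon k).symm)
    have h0 : (∏ i, (diagonal ζ : Matrix (Fin N) (Fin N) K) (I i) (J i)) = 0 :=
      Finset.prod_eq_zero (Finset.mem_univ k) (Matrix.diagonal_apply_ne ζ hk)
    exact mul_eq_zero_of_left h0 (x J)
  · intro h
    exact absurd (Finset.mem_univ _) h

theorem KZ (hSS : SS_stmt) (hDG : DG_stmt) (hGZ : GZ_stmt) (hDD : DD_stmt) (hKF : KF_stmt)
    (hKI : KI_stmt) (hBX : BX_stmt) (hDL : DL_stmt) (hDB : DB_stmt) (hHG : HG_stmt)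
    (hBT : BT_stmt) (hDC : DC_stmt) (hTP : TP_stmt)
    {F : Type} [Field F] [CharZero F] {N : ℕ} {E : Type} (D : Datum F N E)
    (hcont : ∀ e, Continuous (D.h e)) (T : (m : ℕ) → Set (Tn N m ℚ))
    (hT : ∀ X ∈ Kil T, ∃ Y ∈ gD D, ∃ z ∈ Zm D, X = Y + z)
    (e : E) (hb : ∀ m, ∀ t ∈ T m, Bec D e m t) :
    ∃ C : Finset (Matrix (Fin N) (Fin N) QB),
      (∀ g ∈ C, Cmp D e T g ∧ ∀ m, ∀ t ∈ HZ D m, tp g m *ᵥ up QB t ∈
        Submodule.span QB (up QB '' (D.Hodge e m : Set (Tn N m ℚ)))) ∧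
      ∀ (K : Type) [Field K] [CharZero K] [IsAlgClosed K] (τ : QB →+* K)
        (c : Matrix (Fin N) (Fin N) K), Cmp D e T c →
        ∃ g ∈ C, ∃ z : Matrix (Fin N) (Fin N) K, TZ D K z ∧ ∀ m, ∀ t ∈ D.Hodge D.base m,
          tp c m *ᵥ up K t = tp (g.map τ * z) m *ᵥ up K t := by
  obtain ⟨G, hG, hGd⟩ := hDG QB N (Zm D)
    (fun z hz z' hz' => (hGZ F N E D hcont).2.2.1 z hz z' hz') (hSS F N E D)
  obtain ⟨C, hC1, hC2⟩ := hKF F N E D hcont T hT e hb G ⟨hG, hGd⟩
  refine ⟨C, fun g hg => ⟨hC1 g hg, fun m t ht => ?_⟩, ?_⟩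
  · have hu := (hC1 g hg).1
    refine FK_span hBX hDL hDB hHG hBT hDC hTP D hcont T hT e QB g g⁻¹
      (Matrix.mul_nonsing_inv _ ((Matrix.isUnit_iff_isUnit_det _).1 hu))
      (Matrix.nonsing_inv_mul _ ((Matrix.isUnit_iff_isUnit_det _).1 hu)) ?_ m t ht
    intro n s hs
    obtain ⟨s', hs', hcl⟩ := hb n s hs
    exact ⟨s', hs', (hC1 g hg).2 n s hs s' hs' hcl⟩
  · intro K _ _ _ τ c hc
    obtain ⟨g, hg, hk⟩ := hC2 K τ c hc
    have htp : ∀ (a b : Matrix (Fin N) (Fin N) K) (n : ℕ) (x : Tn N n K),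
        tp a n *ᵥ (tp b n *ᵥ x) = tp (a * b) n *ᵥ x := by
      intro a b n x
      rw [(hTP N n K a b).1, Matrix.mulVec_mulVec]
    have htp1 : ∀ (n : ℕ) (x : Tn N n K), tp (1 : Matrix (Fin N) (Fin N) K) n *ᵥ x = x := by
      intro n x
      rw [(hTP N n K 1 1).2, Matrix.one_mulVec]
    -- inverses
    obtain ⟨Gi, hGi, hGi'⟩ : ∃ Gi, G * Gi = 1 ∧ Gi * G = 1 := ⟨G⁻¹,
      Matrix.mul_nonsing_inv _ ((Matrix.isUnit_iff_isUnit_det _).1 hG),
      Matrix.nonsing_inv_mul _ ((Matrix.isUnit_iff_isUnit_det _).1 hG)⟩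
    obtain ⟨gi, hgi, hgi'⟩ : ∃ gi, g * gi = 1 ∧ gi * g = 1 := ⟨g⁻¹,
      Matrix.mul_nonsing_inv _ ((Matrix.isUnit_iff_isUnit_det _).1 (hC1 g hg).1),
      Matrix.nonsing_inv_mul _ ((Matrix.isUnit_iff_isUnit_det _).1 (hC1 g hg).1)⟩
    have hmap : ∀ A B : Matrix (Fin N) (Fin N) QB, (A * B).map τ = A.map τ * B.map τ :=
      fun A B => Matrix.map_mul
    have hone : (1 : Matrix (Fin N) (Fin N) QB).map τ = 1 :=
      Matrix.map_one τ (map_zero τ) (map_one τ)
    have hGK : G.map τ * Gi.map τ = 1 := by rw [← hmap, hGi, hone]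
    have hGK' : Gi.map τ * G.map τ = 1 := by rw [← hmap, hGi', hone]
    have hgK : g.map τ * gi.map τ = 1 := by rw [← hmap, hgi, hone]
    have hgK' : gi.map τ * g.map τ = 1 := by rw [← hmap, hgi', hone]
    -- the matrix `u`
    obtain ⟨u, hu⟩ : ∃ u, u = Gi.map τ * gi.map τ * (c * G.map τ) := ⟨_, rfl⟩
    have hgu : g.map τ * G.map τ * u = c * G.map τ := by
      rw [hu]
      have : g.map τ * G.map τ * (Gi.map τ * gi.map τ * (c * G.map τ)) =
          g.map τ * (G.map τ * Gi.map τ) * gi.map τ * (c * G.map τ) := by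
        simp only [Matrix.mul_assoc]
      rw [this, hGK, Matrix.mul_one, hgK, Matrix.one_mul]
    have hinj : ∀ (n : ℕ) (x x' : Tn N n K),
        tp (g.map τ * G.map τ) n *ᵥ x = tp (g.map τ * G.map τ) n *ᵥ x' → x = x' := by
      intro n x x' h
      have h1 := congrArg (fun w => tp (Gi.map τ * gi.map τ) n *ᵥ w) h
      simp only [htp] at h1
      have h2 : Gi.map τ * gi.map τ * (g.map τ * G.map τ) = 1 := by
        have : Gi.map τ * gi.map τ * (g.map τ * G.map τ) =
            Gi.map τ * (gi.map τ * g.map τ) * G.map τ := by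
          simp only [Matrix.mul_assoc]
        rw [this, hgK', Matrix.mul_one, hGK']
      rw [h2, htp1, htp1] at h1
      exact h1
    obtain ⟨ζ, hζ0, hζ1, hζ⟩ := hKI F N E D hcont G ⟨hG, hGd⟩ K τ u (by
      intro m y a hy0 hy hw
      obtain ⟨k, hk0, hk1, hk2⟩ := hk m y a hy0 hy hw
      refine ⟨k, hk0, ?_, hk2⟩
      apply hinj m
      rw [htp, hgu, hk1, Matrix.mulVec_smul])
    refine ⟨g, hg, G.map τ * diagonal ζ * Gi.map τ, ⟨?_, ?_⟩, ?_⟩
    · -- invertible
      have hd : IsUnit (diagonal ζ : Matrix (Fin N) (Fin N) K) := by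
        rw [Matrix.isUnit_iff_isUnit_det, Matrix.det_diagonal, isUnit_iff_ne_zero]
        exact Finset.prod_ne_zero_iff.mpr fun i _ => hζ0 i
      exact ((IsUnit.of_mul_eq_one _ hGK).mul hd).mul (IsUnit.of_mul_eq_one _ hGK')
    · -- the torus
      intro m x hx
      have h1 : ∀ I, (tp (Gi.map τ) m *ᵥ x) I ≠ 0 → ∏ k, ζ (I k) = 1 := by
        intro I hI
        refine hζ1 m I ?_
        rintro d ⟨y, hy, hyd⟩
        have h2 : Gi.map τ * cst K y * G.map τ = diagonal (fun i => τ (d i)) := by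
          have h3 : cst K y = (cst QB y).map τ := by
            funext i j
            simp [cst, Matrix.map_apply]
          rw [h3, ← hmap, ← hmap, Matrix.mul_assoc, hyd, ← Matrix.mul_assoc, hGi', Matrix.one_mul,
            Matrix.diagonal_map (map_zero τ)]
        have h4 := hDC N m K (Gi.map τ) (G.map τ) (cst K y) hGK' hGK x
        rw [hx y hy, Matrix.mulVec_zero, h2, hDD K N m] at h4
        have h5 := congrFun h4 I
        have h6 : (∑ k, τ (d (I k))) * (tp (Gi.map τ) m *ᵥ x) I = 0 := h5.symm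
        rcases mul_eq_zero.mp h6 with h7 | h7
        · rw [← map_sum] at h7
          exact (map_eq_zero τ).mp h7
        · exact absurd h7 hI
      have h2 : tp (diagonal ζ) m *ᵥ (tp (Gi.map τ) m *ᵥ x) = tp (Gi.map τ) m *ᵥ x := by
        funext I
        rw [KZ_diag]
        by_cases hI : (tp (Gi.map τ) m *ᵥ x) I = 0
        · rw [hI, mul_zero]
        · rw [h1 I hI, one_mul]
      have h3 : tp (G.map τ * diagonal ζ * Gi.map τ) m *ᵥ x =
          tp (G.map τ) m *ᵥ (tp (diagonal ζ) m *ᵥ (tp (Gi.map τ) m *ᵥ x)) := by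
        rw [htp, htp, Matrix.mul_assoc]
      rw [h3, h2, htp, hGK, htp1]
    · -- Hodge tensors
      intro m t ht
      obtain ⟨y, hy⟩ : ∃ y, y = tp Gi m *ᵥ up QB t := ⟨_, rfl⟩
      have hyGI : GI D G m y := by
        intro Y hY
        have hGinv : G⁻¹ = Gi := by
          exact Matrix.inv_eq_right_inv hGi
        rw [hGinv, hy, ← hDC N m QB Gi G (cst QB Y) hGi' hGi (up QB t), ← hDB N m QB Y t,
          hY m t ht]
        have : up QB (0 : Tn N m ℚ) = 0 := by
          funext I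
          simp [up]
        rw [this, Matrix.mulVec_zero]
      have hty : tp (G.map τ) m *ᵥ tu τ y = up K t := by
        have h1 : tp G m *ᵥ y = up QB t := by
          rw [hy, Matrix.mulVec_mulVec, ← (hTP N m QB G Gi).1, hGi, (hTP N m QB 1 1).2,
            Matrix.one_mulVec]
        have h2 : up K t = fun I => τ (up QB t I) := by
          funext I
          simp [up]
        rw [h2, ← h1]
        funext I
        exact (FK_map τ m G y I).symm
      have h1 := hζ m y hyGI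
      calc tp c m *ᵥ up K t = tp (c * G.map τ) m *ᵥ tu τ y := by rw [← hty, htp]
        _ = tp (g.map τ * G.map τ * u) m *ᵥ tu τ y := by rw [hgu]
        _ = tp (g.map τ * G.map τ) m *ᵥ (tp (diagonal ζ) m *ᵥ tu τ y) := by rw [← htp, h1]
        _ = tp (g.map τ * (G.map τ * diagonal ζ * Gi.map τ)) m *ᵥ (tp (G.map τ) m *ᵥ tu τ y) := by
            rw [htp, htp]
            refine congrArg (fun A => tp A m *ᵥ tu τ y) ?_
            have : g.map τ * (G.map τ * diagonal ζ * Gi.map τ) * G.map τ =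
                g.map τ * G.map τ * diagonal ζ * (Gi.map τ * G.map τ) := by
              simp only [Matrix.mul_assoc]
            rw [this, hGK', Matrix.mul_one]
        _ = tp (g.map τ * (G.map τ * diagonal ζ * Gi.map τ)) m *ᵥ up K t := by rw [hty]

end Pool.Agent.FPZ
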