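import Pool.Agent.helper55.FPZ.Spec

/-!
# Project FPZ: the classes killed by `Zm D`, for an arbitrary family `T`
-/

set_option autoImplicit false

namespace Pool.Agent.FPZ

open Matrix Polynomial Pool.Agent.PL Pool.Agent.X4

theorem MZ_killB (hDL : DL_stmt) {F : Type} [Field F] {N : ℕ}
    (S : Set (Matrix (Fin N) (Fin N) F)) (m : ℕ) (t : Tn N m F) (h : ∀ B ∈ S, der B m t = 0)
    (B : Matrix (Fin N) (Fin N) F) (hB : B ∈ Submodule.span F S) : der B m t = 0 := by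
  induction hB using Submodule.span_induction with
  | mem x hx => exact h x hx
  | zero =>
    funext I
    simp [der]
  | add x y _ _ hx hy => rw [(hDL N m F x y t t 0).1, hx, hy, add_zero]
  | smul c x _ hx => rw [(hDL N m F x x t t c).2.1, hx, smul_zero]

theorem MZ_hz (hDL : DL_stmt) (hDB : DB_stmt) {F : Type} [Field F] [CharZero F] {N : ℕ} {E : Type}
    (D : Datum F N E) (m : ℕ) (t : Tn N m ℚ) (ht : t ∈ HZ D m)
    (B : Matrix (Fin N) (Fin N) F) (hB : B ∈ Submodule.span F (cst F '' gD D))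
    (C : Matrix (Fin N) (Fin N) F) (hC : C ∈ Submodule.span F (cst F '' Zm D)) :
    der (B + C) m (up F t) = 0 := by
  have hu0 : up F (0 : Tn N m ℚ) = 0 := by
    funext I
    simp [up]
  have h1 : der B m (up F t) = 0 := by
    refine MZ_killB hDL (cst F '' gD D) m (up F t) ?_ B hB
    rintro _ ⟨Y, hY, rfl⟩
    rw [← hDB N m F Y t, hY m t ht.1, hu0]
  have h2 : der C m (up F t) = 0 := by
    refine MZ_killB hDL (cst F '' Zm D) m (up F t) ?_ C hC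
    rintro _ ⟨z, hz, rfl⟩
    rw [← hDB N m F z t, ht.2 z hz, hu0]
  rw [(hDL N m F B C (up F t) (up F t) 0).1, h1, h2, add_zero]

/-- The transport to another embedding. -/
theorem MZ_span (hHG : HG_stmt) (hBT : BT_stmt) (hDC : DC_stmt) (hTP : TP_stmt)
    {F : Type} [Field F] [CharZero F] {N : ℕ} {E : Type} (D : Datum F N E)
    (hcont : ∀ e, Continuous (D.h e)) (e : E) (m : ℕ) (t : Tn N m ℚ)
    (hk : ∀ X ∈ Kil (fun m' => (D.Hodge e m' : Set (Tn N m' ℚ))),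
      der ((D.P D.base)⁻¹ * D.P e * cst F X * ((D.P e)⁻¹ * D.P D.base)) m (up F t) = 0) :
    D.cls D.base m t ∈ Submodule.span F (D.cls e m '' (D.Hodge e m : Set (Tn N m ℚ))) := by
  have hue : (D.P e)⁻¹ * D.P e = 1 :=
    Matrix.nonsing_inv_mul _ ((Matrix.isUnit_iff_isUnit_det _).1 (D.isUnit e))
  have hue' : D.P e * (D.P e)⁻¹ = 1 :=
    Matrix.mul_nonsing_inv _ ((Matrix.isUnit_iff_isUnit_det _).1 (D.isUnit e))
  have hub : (D.P D.base)⁻¹ * D.P D.base = 1 :=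
    Matrix.nonsing_inv_mul _ ((Matrix.isUnit_iff_isUnit_det _).1 (D.isUnit D.base))
  have hub' : D.P D.base * (D.P D.base)⁻¹ = 1 :=
    Matrix.mul_nonsing_inv _ ((Matrix.isUnit_iff_isUnit_det _).1 (D.isUnit D.base))
  have htp : ∀ (a b : Matrix (Fin N) (Fin N) F) (n : ℕ) (x : Tn N n F),
      tp a n *ᵥ (tp b n *ᵥ x) = tp (a * b) n *ᵥ x := by
    intro a b n x
    rw [(hTP N n F a b).1, Matrix.mulVec_mulVec]
  set c : Matrix (Fin N) (Fin N) F := (D.P e)⁻¹ * D.P D.base with hc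
  set c' : Matrix (Fin N) (Fin N) F := (D.P D.base)⁻¹ * D.P e with hc'
  have hcc' : c * c' = 1 := by
    rw [hc, hc', Matrix.mul_assoc, ← Matrix.mul_assoc (D.P D.base), hub', Matrix.one_mul, hue]
  have hc'c : c' * c = 1 := by
    rw [hc, hc', Matrix.mul_assoc, ← Matrix.mul_assoc (D.P e), hue', Matrix.one_mul, hub]
  obtain ⟨hG1, -⟩ := hHG N (D.h e) (hcont e) (fun m' => (D.Hodge e m' : Set (Tn N m' ℚ)))
    (fun n s hs => hs)
  have hkey : ∀ X ∈ Kil (fun m' => (D.Hodge e m' : Set (Tn N m' ℚ))),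
      der (cst F X) m (tp c m *ᵥ up F t) = 0 := by
    intro X hX
    have hconj : c * (c' * cst F X * c) * c' = cst F X := by
      rw [Matrix.mul_assoc, Matrix.mul_assoc (c' * cst F X), hcc', Matrix.mul_one,
        ← Matrix.mul_assoc, hcc', Matrix.one_mul]
    have h8 := hDC N m F c c' (c' * cst F X * c) hcc' hc'c (up F t)
    rw [hconj, hk X hX, Matrix.mulVec_zero] at h8
    exact h8.symm
  have hspan := hBT F N m (Kil (fun m' => (D.Hodge e m' : Set (Tn N m' ℚ))))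
    (tp c m *ᵥ up F t) hkey
  have h9 : Matrix.mulVecLin (tp (D.P e) m) (tp c m *ᵥ up F t) = D.cls D.base m t := by
    rw [Matrix.mulVecLin_apply, htp, hc, ← Matrix.mul_assoc, hue', Matrix.one_mul]
    rfl
  rw [← h9]
  have h10 := Submodule.mem_map_of_mem (f := Matrix.mulVecLin (tp (D.P e) m)) hspan
  rw [Submodule.map_span] at h10
  refine Submodule.span_mono ?_ h10
  rintro _ ⟨_, ⟨s, hs, rfl⟩, rfl⟩
  exact ⟨s, hG1 m s hs, rfl⟩

/-- A tensor which becomes Hodge is killed. -/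
theorem MZ_bec (hDB : DB_stmt) (hDC : DC_stmt) (hTP : TP_stmt)
    {F : Type} [Field F] [CharZero F] {N : ℕ} {E : Type} (D : Datum F N E)
    (e : E) (m : ℕ) (t : Tn N m ℚ) (hb : Bec D e m t)
    (X : Matrix (Fin N) (Fin N) ℚ) (hX : X ∈ Kil (fun m' => (D.Hodge e m' : Set (Tn N m' ℚ)))) :
    der ((D.P D.base)⁻¹ * D.P e * cst F X * ((D.P e)⁻¹ * D.P D.base)) m (up F t) = 0 := by
  have hue : (D.P e)⁻¹ * D.P e = 1 :=
    Matrix.nonsing_inv_mul _ ((Matrix.isUnit_iff_isUnit_det _).1 (D.isUnit e))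
  have hue' : D.P e * (D.P e)⁻¹ = 1 :=
    Matrix.mul_nonsing_inv _ ((Matrix.isUnit_iff_isUnit_det _).1 (D.isUnit e))
  have hub : (D.P D.base)⁻¹ * D.P D.base = 1 :=
    Matrix.nonsing_inv_mul _ ((Matrix.isUnit_iff_isUnit_det _).1 (D.isUnit D.base))
  have hub' : D.P D.base * (D.P D.base)⁻¹ = 1 :=
    Matrix.mul_nonsing_inv _ ((Matrix.isUnit_iff_isUnit_det _).1 (D.isUnit D.base))
  have htp : ∀ (a b : Matrix (Fin N) (Fin N) F) (n : ℕ) (x : Tn N n F),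
      tp a n *ᵥ (tp b n *ᵥ x) = tp (a * b) n *ᵥ x := by
    intro a b n x
    rw [(hTP N n F a b).1, Matrix.mulVec_mulVec]
  have htp1 : ∀ (n : ℕ) (x : Tn N n F), tp (1 : Matrix (Fin N) (Fin N) F) n *ᵥ x = x := by
    intro n x
    rw [(hTP N n F 1 1).2, Matrix.one_mulVec]
  set c : Matrix (Fin N) (Fin N) F := (D.P e)⁻¹ * D.P D.base with hc
  set c' : Matrix (Fin N) (Fin N) F := (D.P D.base)⁻¹ * D.P e with hc'
  have hcc' : c * c' = 1 := by
    rw [hc, hc', Matrix.mul_assoc, ← Matrix.mul_assoc (D.P D.base), hub', Matrix.one_mul, hue]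
  have hc'c : c' * c = 1 := by
    rw [hc, hc', Matrix.mul_assoc, ← Matrix.mul_assoc (D.P e), hue', Matrix.one_mul, hub]
  obtain ⟨s, hs, hcl⟩ := hb
  have htr : up F s = tp c m *ᵥ up F t := by
    have h1 : tp ((D.P e)⁻¹) m *ᵥ D.cls e m s = tp ((D.P e)⁻¹) m *ᵥ D.cls D.base m t := by
      rw [hcl]
    unfold Datum.cls at h1
    rw [htp, htp, hue, htp1] at h1
    exact h1
  have hconj : c * (c' * cst F X * c) * c' = cst F X := by
    rw [Matrix.mul_assoc, Matrix.mul_assoc (c' * cst F X), hcc', Matrix.mul_one,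
      ← Matrix.mul_assoc, hcc', Matrix.one_mul]
  have h1 : der X m s = 0 := hX m s hs
  have h3 : der (cst F X) m (up F s) = 0 := by
    rw [← hDB N m F X s, h1]
    funext I
    simp [up]
  have h5 := hDC N m F c c' (c' * cst F X * c) hcc' hc'c (up F t)
  rw [hconj, ← htr, h3] at h5
  have h6 : tp c' m *ᵥ (tp c m *ᵥ der (c' * cst F X * c) m (up F t)) = 0 := by
    rw [h5, Matrix.mulVec_zero]
  rw [htp, hc'c, htp1] at h6
  exact h6

/-- Another embedding, the classes killed by `Zm D`. -/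
theorem MZ1 (hSPB : SPB_stmt) (hHG : HG_stmt) (hBT : BT_stmt) (hDC : DC_stmt) (hDL : DL_stmt)
    (hDB : DB_stmt) (hTP : TP_stmt)
    {F : Type} [Field F] [CharZero F] {N : ℕ} {E : Type} (D : Datum F N E)
    (hcont : ∀ e, Continuous (D.h e)) (T : (m : ℕ) → Set (Tn N m ℚ))
    (hT : ∀ X ∈ Kil T, ∃ Y ∈ gD D, ∃ z ∈ Zm D, X = Y + z)
    (e : E) (hb : ∀ m, ∀ t ∈ T m, Bec D e m t) (m : ℕ) (t : Tn N m ℚ) (ht : t ∈ HZ D m) :
    D.cls D.base m t ∈ Submodule.span F (D.cls e m '' (D.Hodge e m : Set (Tn N m ℚ))) := by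
  refine MZ_span hHG hBT hDC hTP D hcont e m t ?_
  intro X hX
  obtain ⟨B, hB, C, hC, hA⟩ := hSPB F N E D T hT
    ((D.P D.base)⁻¹ * D.P e * cst F X * ((D.P e)⁻¹ * D.P D.base))
    (fun n s hs => MZ_bec hDB hDC hTP D e n s (hb n s hs) X hX)
  rw [hA]
  exact MZ_hz hDL hDB D m t ht B hB C hC

/-- Conjugation of the killing condition. -/
theorem MZ_conj (hDC : DC_stmt) (hTP : TP_stmt) {F : Type} [Field F] {N : ℕ}
    (P Pi A : Matrix (Fin N) (Fin N) F) (h1 : P * Pi = 1) (h2 : Pi * P = 1) (m : ℕ)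
    (t : Tn N m F) :
    der (Pi * A * P) m t = 0 ↔ der A m (tp P m *ᵥ t) = 0 := by
  have e1 : tp Pi m *ᵥ (tp P m *ᵥ t) = t := by
    rw [Matrix.mulVec_mulVec, ← (hTP N m F Pi P).1, h2, (hTP N m F Pi P).2, Matrix.one_mulVec]
  have e2 := hDC N m F Pi P A h2 h1 (tp P m *ᵥ t)
  rw [e1] at e2
  constructor
  · intro h
    rw [h] at e2
    have e3 : tp P m *ᵥ (tp Pi m *ᵥ der A m (tp P m *ᵥ t)) = der A m (tp P m *ᵥ t) := by
      rw [Matrix.mulVec_mulVec, ← (hTP N m F P Pi).1, h1, (hTP N m F P Pi).2,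
        Matrix.one_mulVec]
    rw [← e3, e2, Matrix.mulVec_zero]
  · intro h
    rw [← e2, h, Matrix.mulVec_zero]

/-- Finite intersections. -/
theorem MZ_finset {F : Type} [Field F] [TopologicalSpace F] [CharZero F] {N : ℕ} {E : Type}
    (D : Datum F N E) {Γ : Type} [Group Γ] [TopologicalSpace Γ]
    (ga : Gal D Γ) (S : Finset (Σ m : ℕ, Tn N m ℚ))
    (hS : ∀ s ∈ S, ∃ U : Subgroup Γ, IsOpen (U : Set Γ) ∧ ∀ σ ∈ U,
      tp (ga.R σ) s.1 *ᵥ D.cls D.base s.1 s.2 = D.cls D.base s.1 s.2) :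
    ∃ U : Subgroup Γ, IsOpen (U : Set Γ) ∧ ∀ σ ∈ U, ∀ s ∈ S,
      tp (ga.R σ) s.1 *ᵥ D.cls D.base s.1 s.2 = D.cls D.base s.1 s.2 := by
  classical
  induction S using Finset.induction_on with
  | empty =>
    refine ⟨⊤, ?_, ?_⟩
    · rw [Subgroup.coe_top]
      exact isOpen_univ
    · intro σ _ t ht
      simp at ht
  | insert a S ha ih =>
    obtain ⟨U, hU, hU2⟩ := ih fun t ht => hS t (Finset.mem_insert_of_mem ht)
    obtain ⟨V, hV, hV2⟩ := hS a (Finset.mem_insert_self a S)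
    refine ⟨U ⊓ V, ?_, ?_⟩
    · rw [Subgroup.coe_inf]
      exact hU.inter hV
    · intro σ hσ t ht
      obtain ⟨hσU, hσV⟩ := Subgroup.mem_inf.mp hσ
      rcases Finset.mem_insert.mp ht with rfl | ht
      · exact hV2 σ hσV
      · exact hU2 σ hσU t ht

/-- The Galois group, the classes killed by `Zm D`. -/
theorem MZ2 (hSPB : SPB_stmt) (hFT : FT_stmt) (hLG : LG_stmt) (hNB : NB_stmt) (hDC : DC_stmt)
    (hDL : DL_stmt) (hDB : DB_stmt) (hTP : TP_stmt)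
    {F : Type} [NormedField F] [IsUltrametricDist F] [CharZero F] (l : ℕ) (hl : l.Prime)
    (hlF : ‖(l : F)‖ < 1) {N : ℕ} {E : Type} (D : Datum F N E)
    (T : (m : ℕ) → Set (Tn N m ℚ))
    (hT : ∀ X ∈ Kil T, ∃ Y ∈ gD D, ∃ z ∈ Zm D, X = Y + z)
    {Γ : Type} [Group Γ] [TopologicalSpace Γ] [IsTopologicalGroup Γ]
    (ga : Gal D Γ)
    (ho : ∀ m, ∀ t ∈ T m, ∃ U : Subgroup Γ, IsOpen (U : Set Γ) ∧ ∀ σ ∈ U,
      tp (ga.R σ) m *ᵥ D.cls D.base m t = D.cls D.base m t) :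
    ∃ U : Subgroup Γ, IsOpen (U : Set Γ) ∧ ∀ σ ∈ U, ∀ m, ∀ t ∈ HZ D m,
      tp (ga.R σ) m *ᵥ D.cls D.base m t = D.cls D.base m t := by
  classical
  obtain ⟨S, hST, hS⟩ := hFT N T
  obtain ⟨U1, hU1, hU1'⟩ := MZ_finset D ga S fun s hs => ho s.1 s.2 (hST s hs)
  have hl0 : 0 < ‖(l : F)‖ := by
    rw [norm_pos_iff]
    exact Nat.cast_ne_zero.mpr hl.ne_zero
  have hc0 : 0 < ‖(l : F)‖ ^ 2 := by positivity
  have hc1 : ‖(l : F)‖ ^ 2 < 1 := pow_lt_one₀ hl0.le hlF (by norm_num)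
  obtain ⟨U0, hU0, hU0'⟩ := hNB F N Γ ga.R ga.cont (‖(l : F)‖ ^ 2) hc0 hc1
  obtain ⟨Pi, hPPi⟩ : ∃ Pi, D.P D.base * Pi = 1 := (D.isUnit D.base).exists_right_inv
  have hPiP : Pi * D.P D.base = 1 := mul_eq_one_comm.mp hPPi
  refine ⟨U0 ⊓ U1, ?_, ?_⟩
  · rw [Subgroup.coe_inf]
    exact hU0.inter hU1
  intro σ hσ m t ht
  obtain ⟨hσ0, hσ1⟩ := Subgroup.mem_inf.mp hσ
  refine hLG F l hl hlF N
    (S.image fun s => (⟨s.1, D.cls D.base s.1 s.2⟩ : Σ m : ℕ, Tn N m F)) m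
    (D.cls D.base m t) ?_ (ga.R σ) (fun i j => hU0' σ hσ0 i j) ?_
  · intro A hA
    obtain ⟨B, hB, C, hC, hAe⟩ := hSPB F N E D
      (fun n => {s | (⟨n, s⟩ : Σ m : ℕ, Tn N m ℚ) ∈ S}) (by
        intro X hX
        refine hT X (hS X ?_)
        rintro ⟨n, s⟩ hs
        exact hX n s hs) (Pi * A * D.P D.base) (by
        intro n s hs
        rw [MZ_conj hDC hTP (D.P D.base) Pi A hPPi hPiP n (up F s)]
        exact hA ⟨n, D.cls D.base n s⟩
          (Finset.mem_image_of_mem (fun s : Σ m : ℕ, Tn N m ℚ =>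
            (⟨s.1, D.cls D.base s.1 s.2⟩ : Σ m : ℕ, Tn N m F)) hs))
    have h1 := MZ_hz hDL hDB D m t ht B hB C hC
    rw [← hAe, MZ_conj hDC hTP (D.P D.base) Pi A hPPi hPiP m (up F t)] at h1
    exact h1
  · intro s hs
    obtain ⟨x, hx, rfl⟩ := Finset.mem_image.mp hs
    exact hU1' σ hσ1 x hx

end Pool.Agent.FPZ
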