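import Pool.Agent.helper55.FPZ.Spec

/-!
# Project FPZ, second part: coefficients in a number field

THEOREM (`NF_stmt`). Data as in FPZ. Let `T` be an ample family of Hodge tensors (base embedding) which
become Hodge under `e`. Then there is ONE number field `L` in `F` such that for all `m` every Hodge tensor of
order `m` killed by `Zm D` (every Hodge tensor, if there is no factor of CM type) is an `L`-linear
combination of Hodge tensors for `e`. (In X4: `F`-linear.)

PROOF. `c = (P e)⁻¹ * P base`. Let `δ` be a derivation of `F` over `ℚ`, `X = c⁻¹ δ(c)`. For `s ∈ T m` the tensor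
`tp c s` is rational, so `0 = δ (tp c s) = tp c (der X s)`: `X` kills `T`. So `X = B + C`, `B ∈ F g`, `C ∈ F Zm`,
and `X` kills `t`; so `δ (tp c t) = tp c (der X t) = 0` for all `δ`: the coordinates of `tp c t` are algebraic
over `ℚ`. They are elements of `ℚ(c_ij)`, and the algebraic elements of a finitely generated field form a
number field `L`. As `tp c t` is in the `F`-span of the rational space `Hodge e m` and has coordinates in `L`, it
is in the `L`-span.

RULES as in Spec.lean; `import Pool.Agent.helper55.FPZ.SpecN`.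
-/

set_option autoImplicit false

namespace Pool.Agent.FPZ

open Matrix Polynomial Pool.Agent.PL Pool.Agent.X4

/-- `ND1` (short-medium). PROOF. Let `Y = δ(c) c'`, so `Y c = δ(c)`. `z = tp c t`, `z I = ∑_J (∏_i c (I i) (J i)) t J`. `δ (z I)
= ∑_J ∑_k δ(c (I k) (J k)) (∏_(i ≠ k) c (I i) (J i)) t J` (`δ` of a product; `δ` of a rational number is `0`). And
`z (update I k j) = ∑_J c j (J k) (∏_(i ≠ k) c (I i) (J i)) t J` (`Finset.mul_prod_erase`), so `∑_j Y (I k) j z (update I k j) =
∑_J (Y c) (I k) (J k) ∏_(i ≠ k) ..`. -/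
def ND1_stmt : Prop := ∀ (F : Type) [Field F] [CharZero F] (N m : ℕ) (δ : Derivation ℚ F F)
  (c c' : Matrix (Fin N) (Fin N) F), c' * c = 1 → ∀ t : Tn N m ℚ,
  (fun I => δ ((tp c m *ᵥ up F t) I)) = der ((c.map fun x => δ x) * c') m (tp c m *ᵥ up F t)

/-- `ND2` (medium, only Mathlib). A number killed by all derivations is algebraic. PROOF. Let `x` be transcendental.
`A = ℚ(x) = IntermediateField.adjoin ℚ {x}`, a localisation of the polynomial ring `ℚ[x]`. `F` is formally smooth over `A`: choose
a transcendence basis `v` of `F` over `A`, `F` is algebraic and separable over `A(v)` (characteristic `0`);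
`Algebra.FormallySmooth.of_algebraicIndependent_of_isSeparable`. So `F` is formally smooth over `ℚ[X]` (`X ↦ x`; `FormallySmooth.comp`,
`.of_isLocalization`), and the `ℚ`-algebra homomorphism `ℚ[X] → F[ε]`, `X ↦ x + ε` (`DualNumber F` or `TrivSqZeroExt F F`) lifts to
`F → F[ε]` (`Algebra.FormallySmooth.lift`; or: `F ⊗ Ω[ℚ[X]/ℚ] → Ω[F/ℚ]` is injective); the coefficient of `ε` is a derivation
with `δ x = 1` (`TrivSqZeroExt` / `derivationToSquareZeroEquivLift`). Alternative: extend `d/dx` from `ℚ(v)`, `x ∈ v` a transcendence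
basis of `F`, to the algebraic extension `F`. -/
def ND2_stmt : Prop := ∀ (F : Type) [Field F] [CharZero F] (x : F),
  (∀ δ : Derivation ℚ F F, δ x = 0) → IsAlgebraic ℚ x

/-- `ND3` (medium, only Mathlib). The algebraic numbers in a finitely generated field. PROOF. `K = ℚ(S)`, `v` a finite
transcendence basis of `K` over `ℚ` (`exists_isTranscendenceBasis`, a subset of `S`), `K` is finite over `ℚ(v)`, of degree `n`
(`IntermediateField.essFiniteType_iff`, `Algebra.finite_of_essFiniteType_of_isAlgebraic`). Elements `α_1, ..., α_d` of `K` which are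
algebraic and linearly independent over `ℚ` are linearly independent over `ℚ(v)`: a relation `∑ f_j(v) α_j = 0`,
`f_j` polynomials over `ℚ` (`LinearIndependent.iff_fractionRing`); `v` is algebraically independent over `ℚ(α)` (`AlgebraicIndependent.extendScalars`,
`algebraicClosure`), so the polynomial `∑ α_j f_j` is `0` and all coefficients of the `f_j` are `0`. So `d ≤ n`: `L` = the field
`algebraicClosure ℚ K` seen in `F` has dimension at most `n`. (Or: degree of a primitive element.) -/
def ND3_stmt : Prop := ∀ (F : Type) [Field F] [CharZero F] (S : Finset F),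
  ∃ L : IntermediateField ℚ F, FiniteDimensional ℚ L ∧
    ∀ x ∈ IntermediateField.adjoin ℚ (S : Set F), IsAlgebraic ℚ x → x ∈ L

/-- `ND4` (short-medium; `X4.BC_stmt`). PROOF. `W` is the set of the zeros of a family of linear forms `a_i` over `ℚ`
(`Submodule.dualAnnihilator`, `Subspace.forall_mem_dualAnnihilator_apply_eq_zero_iff`; a linear form on `n → ℚ` is `∑ a j * x j`). `y` satisfies `∑_j a_ij y_j = 0`
(linear combinations). So `BC` for the field `L` and the vector `⟨y j, _⟩` gives a combination with coefficients in `L`; map it to `F`. -/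
def ND4_stmt : Prop := ∀ (F : Type) [Field F] [CharZero F] (L : IntermediateField ℚ F) (n : Type)
  [Fintype n] (W : Submodule ℚ (n → ℚ)) (y : n → F),
  y ∈ Submodule.span F ((fun (w : n → ℚ) (j : n) => ((w j : ℚ) : F)) '' (W : Set (n → ℚ))) →
  (∀ j, y j ∈ L) →
  y ∈ Submodule.span L ((fun (w : n → ℚ) (j : n) => ((w j : ℚ) : F)) '' (W : Set (n → ℚ)))

/-- `NF` (medium; `ND1` to `ND4`, `SPB_stmt`, X4). Written by helper55. -/
def NF_stmt : Prop := ∀ (F : Type) [Field F] [CharZero F] (N : ℕ) (E : Type) (D : Datum F N E),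
  (∀ e, Continuous (D.h e)) → ∀ T : (m : ℕ) → Set (Tn N m ℚ),
  (∀ X ∈ Kil T, ∃ Y ∈ gD D, ∃ z ∈ Zm D, X = Y + z) →
  ∀ e : E, (∀ m, ∀ t ∈ T m, Bec D e m t) →
  ∃ L : IntermediateField ℚ F, FiniteDimensional ℚ L ∧ ∀ m, ∀ t ∈ HZ D m,
    D.cls D.base m t ∈ Submodule.span L (D.cls e m '' (D.Hodge e m : Set (Tn N m ℚ)))

end Pool.Agent.FPZ
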