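import Pool.Agent.helper55.FPZ.MZ
import Pool.Agent.helper55.FPZ.SpecN

/-!
# Project FPZ: row NF (coefficients in one number field)
-/

set_option autoImplicit false

namespace Pool.Agent.FPZ

open Matrix Polynomial Pool.Agent.PL Pool.Agent.X4

/-- The coordinates of `tp c (up t)` are in the field generated by the entries of `c`. -/
theorem NF_mem {F : Type} [Field F] [CharZero F] {N : ℕ} (L : IntermediateField ℚ F)
    (c : Matrix (Fin N) (Fin N) F) (hc : ∀ i j, c i j ∈ L) (m : ℕ) (t : Tn N m ℚ)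
    (I : Fin m → Fin N) : (tp c m *ᵥ up F t) I ∈ L := by
  simp only [Matrix.mulVec, dotProduct, tp, up]
  refine sum_mem fun J _ => mul_mem (prod_mem fun i _ => hc _ _) ?_
  have : ((t J : ℚ) : F) = algebraMap ℚ F (t J) := by simp
  rw [this]
  exact L.algebraMap_mem (t J)

theorem NF (h1 : ND1_stmt) (h2 : ND2_stmt) (h3 : ND3_stmt) (h4 : ND4_stmt) (hSPB : SPB_stmt)
    (hHG : HG_stmt) (hBT : BT_stmt) (hDC : DC_stmt) (hDL : DL_stmt) (hDB : DB_stmt)
    (hTP : TP_stmt) : NF_stmt := by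
  intro F _ _ N E D hcont T hT e hb
  classical
  have hue : (D.P e)⁻¹ * D.P e = 1 :=
    Matrix.nonsing_inv_mul _ ((Matrix.isUnit_iff_isUnit_det _).1 (D.isUnit e))
  have hue' : D.P e * (D.P e)⁻¹ = 1 :=
    Matrix.mul_nonsing_inv _ ((Matrix.isUnit_iff_isUnit_det _).1 (D.isUnit e))
  have hub : (D.P D.base)⁻¹ * D.P D.base = 1 :=
    Matrix.nonsing_inv_mul _ ((Matrix.isUnit_iff_isUnit_det _).1 (D.isUnit D.base))
  have hub' : D.P D.base * (D.P D.base)⁻¹ = 1 :=
    Matrix.mul_nonsing_inv _ ((Matrix.isUnit_iff_isUnit_det _).1 (D.isUnit D.base))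
  have htp : ∀ (a b : Matrix (Fin N) (Fin N) F) (n : ℕ) (x : Tn N n F),
      tp a n *ᵥ (tp b n *ᵥ x) = tp (a * b) n *ᵥ x := by
    intro a b n x
    rw [(hTP N n F a b).1, Matrix.mulVec_mulVec]
  have htp1 : ∀ (n : ℕ) (x : Tn N n F), tp (1 : Matrix (Fin N) (Fin N) F) n *ᵥ x = x := by
    intro n x
    rw [(hTP N n F 1 1).2, Matrix.one_mulVec]
  obtain ⟨c, hcdef⟩ : ∃ c, c = (D.P e)⁻¹ * D.P D.base := ⟨_, rfl⟩
  obtain ⟨c', hcdef'⟩ : ∃ c', c' = (D.P D.base)⁻¹ * D.P e := ⟨_, rfl⟩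
  have hcc' : c * c' = 1 := by
    rw [hcdef, hcdef', Matrix.mul_assoc, ← Matrix.mul_assoc (D.P D.base), hub', Matrix.one_mul,
      hue]
  have hc'c : c' * c = 1 := by
    rw [hcdef, hcdef', Matrix.mul_assoc, ← Matrix.mul_assoc (D.P e), hue', Matrix.one_mul, hub]
  have hPc : D.P e * c = D.P D.base := by
    rw [hcdef, ← Matrix.mul_assoc, hue', Matrix.one_mul]
  -- the number field
  obtain ⟨L, hL, hLm⟩ := h3 F (Finset.univ.image fun ij : Fin N × Fin N => c ij.1 ij.2)
  refine ⟨L, hL, ?_⟩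
  intro m t ht
  have hcmem : ∀ i j, c i j ∈ IntermediateField.adjoin ℚ
      ((Finset.univ.image fun ij : Fin N × Fin N => c ij.1 ij.2 : Finset F) : Set F) := by
    intro i j
    refine IntermediateField.subset_adjoin _ _ ?_
    rw [Finset.mem_coe]
    exact Finset.mem_image_of_mem (fun ij : Fin N × Fin N => c ij.1 ij.2)
      (Finset.mem_univ (i, j))
  -- derivations
  have hδ : ∀ (δ : Derivation ℚ F F) (I : Fin m → Fin N), δ ((tp c m *ᵥ up F t) I) = 0 := by
    intro δ I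
    have hconj : c * (c' * (c.map fun x => δ x)) * c' = (c.map fun x => δ x) * c' := by
      rw [← Matrix.mul_assoc c, hcc', Matrix.one_mul]
    have hform : ∀ (n : ℕ) (s : Tn N n ℚ), (fun I => δ ((tp c n *ᵥ up F s) I)) =
        tp c n *ᵥ der (c' * (c.map fun x => δ x)) n (up F s) := by
      intro n s
      rw [h1 F N n δ c c' hc'c s, hDC N n F c c' (c' * (c.map fun x => δ x)) hcc' hc'c (up F s),
        hconj]
    obtain ⟨B, hB, C, hC, hA⟩ := hSPB F N E D T hT (c' * (c.map fun x => δ x)) (by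
      intro n s hs
      obtain ⟨s', hs', hcl⟩ := hb n s hs
      have htr : up F s' = tp c n *ᵥ up F s := by
        have g1 : tp ((D.P e)⁻¹) n *ᵥ D.cls e n s' = tp ((D.P e)⁻¹) n *ᵥ D.cls D.base n s := by
          rw [hcl]
        unfold Datum.cls at g1
        rw [htp, htp, hue, htp1, ← hcdef] at g1
        exact g1
      have g2 : (fun I => δ ((tp c n *ᵥ up F s) I)) = 0 := by
        rw [← htr]
        funext J
        have : (up F s' J : F) = algebraMap ℚ F (s' J) := by simp [up]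
        rw [this]
        exact δ.map_algebraMap (s' J)
      rw [hform n s] at g2
      have g3 : tp c' n *ᵥ (tp c n *ᵥ der (c' * (c.map fun x => δ x)) n (up F s)) = 0 := by
        rw [g2, Matrix.mulVec_zero]
      rw [htp, hc'c, htp1] at g3
      exact g3)
    have h5 := MZ_hz hDL hDB D m t ht B hB C hC
    rw [← hA] at h5
    have h6 := congrFun (hform m t) I
    rw [h5, Matrix.mulVec_zero] at h6
    exact h6
  have hmem : ∀ I, (tp c m *ᵥ up F t) I ∈ L := fun I =>
    hLm _ (NF_mem _ c hcmem m t I) (h2 F _ fun δ => hδ δ I)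
  -- the F-span
  have hsp := MZ1 hSPB hHG hBT hDC hDL hDB hTP D hcont T hT e hb m t ht
  have hsp2 : tp c m *ᵥ up F t ∈ Submodule.span F
      ((fun (w : (Fin m → Fin N) → ℚ) (J : Fin m → Fin N) => ((w J : ℚ) : F)) ''
        (D.Hodge e m : Set (Tn N m ℚ))) := by
    have g1 := Submodule.mem_map_of_mem (f := Matrix.mulVecLin (tp ((D.P e)⁻¹) m)) hsp
    rw [Submodule.map_span] at g1
    have g2 : Matrix.mulVecLin (tp ((D.P e)⁻¹) m) (D.cls D.base m t) = tp c m *ᵥ up F t := by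
      rw [Matrix.mulVecLin_apply]
      unfold Datum.cls
      rw [htp, ← hcdef]
      rfl
    rw [g2] at g1
    refine Submodule.span_mono ?_ g1
    rintro _ ⟨_, ⟨s, hs, rfl⟩, rfl⟩
    refine ⟨s, hs, ?_⟩
    rw [Matrix.mulVecLin_apply]
    unfold Datum.cls
    rw [htp, hue, htp1]
  have h7 := h4 F L (Fin m → Fin N) (D.Hodge e m) _ hsp2 hmem
  -- apply `tp (P e) m`
  have h8 := Submodule.mem_map_of_mem
    (f := (Matrix.mulVecLin (tp (D.P e) m)).restrictScalars L) h7
  rw [Submodule.map_span] at h8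
  have h9 : ((Matrix.mulVecLin (tp (D.P e) m)).restrictScalars L) (tp c m *ᵥ up F t) =
      D.cls D.base m t := by
    rw [LinearMap.restrictScalars_apply, Matrix.mulVecLin_apply, htp, hPc]
    rfl
  rw [h9] at h8
  refine Submodule.span_mono ?_ h8
  rintro _ ⟨_, ⟨s, hs, rfl⟩, rfl⟩
  exact ⟨s, hs, rfl⟩

end Pool.Agent.FPZ
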